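import Mathlib

/-! The Toeplitz mini-max ratio: definitions. -/

open scoped ComplexConjugate ENNReal
open MeasureTheory AddCircle

namespace Pool.Agent.Toep

instance instFactTwoPi : Fact (0 < 2 * Real.pi) := ⟨Real.two_pi_pos⟩

/-- The unit circle, parametrised by the angle modulo `2π`. The normalised Lebesgue measure is
`haarAddCircle` and `fourierCoeff f n` is the `n`-th Fourier coefficient with respect to it. -/
abbrev Circ := AddCircle (2 * Real.pi)

/-- The `(N + 1) × (N + 1)` Toeplitz matrix `(a (j - k))`, `0 ≤ j, k ≤ N`. -/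
def toep (N : ℕ) (a : ℤ → ℂ) : Matrix (Fin (N + 1)) (Fin (N + 1)) ℂ :=
  Matrix.of fun j k => a ((j : ℤ) - (k : ℤ))

/-- The operator norm of a matrix acting on `ℂ ^ (N + 1)` with the Euclidean norm, that is, on the
space of polynomials of degree at most `N` with the `L²` norm. -/
noncomputable def opNorm {N : ℕ} (A : Matrix (Fin (N + 1)) (Fin (N + 1)) ℂ) : ℝ :=
  ‖Matrix.toEuclideanCLM (n := Fin (N + 1)) (𝕜 := ℂ) A‖

/-- The essential supremum norm of a function on the circle. -/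
noncomputable def supNorm (f : Circ → ℂ) : ℝ := (eLpNorm f ∞ haarAddCircle).toReal

/-- `c_A` for the Toeplitz matrix `A = toep N a`: the infimum of `‖f‖_∞` over all `f ∈ L^∞` whose
Fourier coefficients of index `|n| ≤ N` are `a n`. -/
noncomputable def cMat (N : ℕ) (a : ℤ → ℂ) : ℝ :=
  sInf {C : ℝ | ∃ f : Circ → ℂ, MemLp f ∞ haarAddCircle ∧
    (∀ n : ℤ, |n| ≤ (N : ℤ) → fourierCoeff f n = a n) ∧ supNorm f = C}

/-- The set of all ratios `c_A / ‖A‖`, `A` a nonzero self-adjoint `(N + 1) × (N + 1)` Toeplitz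
matrix. -/
def ratioSet (N : ℕ) : Set ℝ :=
  {r : ℝ | ∃ a : ℤ → ℂ, (∀ n, a (-n) = conj (a n)) ∧ toep N a ≠ 0 ∧
    r = cMat N a / opNorm (toep N a)}

/-- `c_N`, the supremum of `c_A / ‖A‖` over all nonzero self-adjoint `(N + 1) × (N + 1)` Toeplitz
matrices. -/
noncomputable def cConst (N : ℕ) : ℝ := sSup (ratioSet N)

/-- `ψ` is an alternating step function of height `c > 0` and order `n`: for `n = 0` it is the
constant `c` or the constant `-c`; for `n ≥ 1` there are `2 n` points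
`t 0 < t 1 < ⋯ < t (2 n - 1) < t (2 n) = t 0 + 2π` such that `ψ = (-1) ^ j * c` on the open arc
`(t j, t (j + 1))`, `0 ≤ j < 2 n` (the values at the `2 n` end points do not matter). -/
def IsAlternatingStep (c : ℝ) (n : ℕ) (ψ : Circ → ℝ) : Prop :=
  0 < c ∧
    ((n = 0 ∧ ((∀ x, ψ x = c) ∨ ∀ x, ψ x = -c)) ∨
      (1 ≤ n ∧ ∃ t : ℕ → ℝ, (∀ j < 2 * n, t j < t (j + 1)) ∧ t (2 * n) = t 0 + 2 * Real.pi ∧
        ∀ j < 2 * n, ∀ x ∈ Set.Ioo (t j) (t (j + 1)), ψ (x : Circ) = (-1) ^ j * c))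

/-- `ψ` is a maximizer (for `N`) of order `n`: it is an alternating step function of order `n ≤ N`
with `‖ψ‖_∞ / ‖A_{ψ, N}‖ = c_N`. -/
def IsMaximizer (N n : ℕ) (ψ : Circ → ℝ) : Prop :=
  n ≤ N ∧ (∃ c, IsAlternatingStep c n ψ) ∧
    supNorm (fun x => (ψ x : ℂ)) / opNorm (toep N (fourierCoeff fun x => (ψ x : ℂ))) = cConst N

end Pool.Agent.Toep
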