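import Mathlib

/-! The Caratheodory-Toeplitz representation of positive semidefinite Toeplitz matrices. -/

open scoped ComplexConjugate InnerProductSpace ComplexOrder

namespace Pool.Agent.Toep

/-- A linear isometry of a finite-dimensional space is semisimple. -/
theorem isSemisimple_isometry {V : Type*} [NormedAddCommGroup V] [InnerProductSpace ℂ V]
    [FiniteDimensional ℂ V] (U : V →ₗᵢ[ℂ] V) :
    Module.End.IsSemisimple (U.toLinearMap : Module.End ℂ V) := by
  rw [Module.End.isSemisimple_iff]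
  intro p hp
  refine ⟨pᗮ, ?_, Submodule.isCompl_orthogonal p⟩
  rw [Module.End.mem_invtSubmodule] at hp ⊢
  intro x hx
  rw [Submodule.mem_comap, Submodule.mem_orthogonal]
  intro y hy
  -- `U` maps `p` onto `p`
  have hsurj : ∃ z ∈ p, U z = y := by
    let R : p →ₗ[ℂ] p := (U.toLinearMap).restrict (fun x hx => hp hx)
    have hinj : Function.Injective R := by
      intro a b hab
      have h1 : U (a : V) = U (b : V) := congrArg Subtype.val hab
      exact Subtype.ext (U.injective h1)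
    have hs := LinearMap.injective_iff_surjective.mp hinj
    obtain ⟨z, hz⟩ := hs ⟨y, hy⟩
    exact ⟨z, z.2, congrArg Subtype.val hz⟩
  obtain ⟨z, hz, rfl⟩ := hsurj
  change ⟪U z, U x⟫_ℂ = 0
  rw [U.inner_map_map]
  exact (Submodule.mem_orthogonal p x).mp hx z hz

/-- Orbit of a vector under a linear isometry: spectral representation. -/
theorem orbit_repr {V : Type*} [NormedAddCommGroup V] [InnerProductSpace ℂ V]
    [FiniteDimensional ℂ V] (U : V →ₗᵢ[ℂ] V) (v : V) :
    ∃ (s : Finset ℂ) (σ : ℂ → ℝ), (∀ w ∈ s, ‖w‖ = 1 ∧ 0 < σ w) ∧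
      ∀ i j : ℕ, ⟪(U^[i]) v, (U^[j]) v⟫_ℂ =
        ∑ w ∈ s, (σ w : ℂ) * (conj w) ^ i * w ^ j := by
  classical
  have htop := (isSemisimple_isometry U).iSup_eigenspace_eq_top
  have hv : v ∈ ⨆ μ : ℂ, Module.End.eigenspace (U.toLinearMap : Module.End ℂ V) μ := by
    rw [htop]; trivial
  rw [Submodule.mem_iSup_iff_exists_finsupp] at hv
  obtain ⟨f, hf, hsum⟩ := hv
  have hUf : ∀ w, U (f w) = w • f w := fun w => Module.End.mem_eigenspace_iff.mp (hf w)
  have hnorm : ∀ w ∈ f.support, ‖w‖ = 1 := by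
    intro w hw
    have h1 : f w ≠ 0 := Finsupp.mem_support_iff.mp hw
    have h2 : ‖w • f w‖ = ‖f w‖ := by rw [← hUf, U.norm_map]
    rw [norm_smul] at h2
    have h3 : ‖f w‖ ≠ 0 := norm_ne_zero_iff.mpr h1
    field_simp at h2
    exact h2
  have horth : ∀ w ∈ f.support, ∀ z ∈ f.support, w ≠ z → ⟪f w, f z⟫_ℂ = 0 := by
    intro w hw z hz hwz
    have h1 : ⟪U (f w), U (f z)⟫_ℂ = ⟪f w, f z⟫_ℂ := U.inner_map_map _ _
    rw [hUf, hUf, inner_smul_left, inner_smul_right, ← mul_assoc] at h1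
    by_contra hne
    have h2 : conj w * z = 1 := by
      have h3 : (conj w * z - 1) * ⟪f w, f z⟫_ℂ = 0 := by
        rw [sub_mul, h1, one_mul, sub_self]
      rcases mul_eq_zero.mp h3 with h4 | h4
      · exact sub_eq_zero.mp h4
      · exact absurd h4 hne
    apply hwz
    have h4 : w * conj w = 1 := by
      rw [Complex.mul_conj, Complex.normSq_eq_norm_sq, hnorm w hw]
      norm_num
    calc w = w * (conj w * z) := by rw [h2, mul_one]
      _ = (w * conj w) * z := by ring
      _ = z := by rw [h4, one_mul]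
  have hiter : ∀ (i : ℕ) w, (U^[i]) (f w) = w ^ i • f w := by
    intro i
    induction i with
    | zero => intro w; simp
    | succ i ih =>
      intro w
      rw [Function.iterate_succ_apply', ih, map_smul, hUf, smul_smul, pow_succ]
  have hiterv : ∀ i : ℕ, (U^[i]) v = ∑ w ∈ f.support, w ^ i • f w := by
    intro i
    have h1 : ∀ (s : Finset ℂ), (U^[i]) (∑ w ∈ s, f w) = ∑ w ∈ s, w ^ i • f w := by
      intro s
      have h2 : ∀ x : V, (U^[i]) x = (U.toLinearMap ^ i) x := by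
        intro x
        rw [Module.End.pow_apply]
        rfl
      rw [h2, map_sum]
      refine Finset.sum_congr rfl fun w _ => ?_
      rw [← h2, hiter]
    rw [← hsum]
    exact h1 _
  refine ⟨f.support, fun w => ‖f w‖ ^ 2, ?_, ?_⟩
  · intro w hw
    refine ⟨hnorm w hw, ?_⟩
    have h1 : f w ≠ 0 := Finsupp.mem_support_iff.mp hw
    positivity
  · intro i j
    rw [hiterv, hiterv, sum_inner]
    refine Finset.sum_congr rfl fun w hw => ?_
    rw [inner_sum, Finset.sum_eq_single_of_mem w hw]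
    · rw [inner_smul_left, inner_smul_right, inner_self_eq_norm_sq_to_K, map_pow]
      push_cast
      ring_nf
      rfl
    · intro z hz hzw
      rw [inner_smul_left, inner_smul_right, horth w hw z hz (Ne.symm hzw), mul_zero, mul_zero]

/-- The Euclidean space of coefficient vectors. -/
abbrev EV (N : ℕ) := EuclideanSpace ℂ (Fin (N + 1))

open scoped MatrixOrder in
/-- **Caratheodory-Toeplitz.** A positive semidefinite Toeplitz matrix is a nonnegative combination
of rank-one Toeplitz matrices with nodes on the unit circle. -/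
theorem carath {N : ℕ} (M : Matrix (Fin (N + 1)) (Fin (N + 1)) ℂ) (hM : M.PosSemidef)
    (hT : ∀ i j : Fin N, M i.succ j.succ = M i.castSucc j.castSucc) :
    ∃ (s : Finset ℂ) (σ : ℂ → ℝ), (∀ w ∈ s, ‖w‖ = 1 ∧ 0 < σ w) ∧
      ∀ i j : Fin (N + 1), M i j = ∑ w ∈ s, (σ w : ℂ) * (conj w) ^ (i : ℕ) * w ^ (j : ℕ) := by
  classical
  -- Gram vectors
  obtain ⟨B, hB⟩ : ∃ B : Matrix (Fin (N + 1)) (Fin (N + 1)) ℂ, M = B.conjTranspose * B := by
    have h0 : 0 ≤ M := Matrix.nonneg_iff_posSemidef.mpr hM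
    obtain ⟨B, hB⟩ := CStarAlgebra.nonneg_iff_eq_star_mul_self.mp h0
    exact ⟨B, hB⟩
  let v : Fin (N + 1) → EV N := fun j => WithLp.toLp 2 (fun l => B l j)
  have hv : ∀ i j, ⟪v i, v j⟫_ℂ = M i j := by
    intro i j
    rw [hB, Matrix.mul_apply, PiLp.inner_apply]
    refine Finset.sum_congr rfl fun l _ => ?_
    simp [v, Matrix.conjTranspose_apply, mul_comm]
  let L₁ : (Fin N → ℂ) →ₗ[ℂ] EV N := Fintype.linearCombination ℂ (fun i : Fin N => v i.castSucc)
  let L₂ : (Fin N → ℂ) →ₗ[ℂ] EV N := Fintype.linearCombination ℂ (fun i : Fin N => v i.succ)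
  have hinner : ∀ c d, ⟪L₂ c, L₂ d⟫_ℂ = ⟪L₁ c, L₁ d⟫_ℂ := by
    intro c d
    simp only [L₁, L₂, Fintype.linearCombination_apply, sum_inner, inner_sum, inner_smul_left,
      inner_smul_right, hv, hT]
  have hnorm : ∀ c, ‖L₂ c‖ = ‖L₁ c‖ := by
    intro c
    have h1 := hinner c c
    rw [inner_self_eq_norm_sq_to_K, inner_self_eq_norm_sq_to_K] at h1
    have h2 : ‖L₂ c‖ ^ 2 = ‖L₁ c‖ ^ 2 := by exact_mod_cast h1
    exact (pow_left_inj₀ (norm_nonneg _) (norm_nonneg _) two_ne_zero).mp h2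
  have hker : LinearMap.ker L₁ ≤ LinearMap.ker L₂ := by
    intro c hc
    rw [LinearMap.mem_ker] at hc ⊢
    have h1 := hnorm c
    rw [hc, norm_zero] at h1
    exact norm_eq_zero.mp h1
  let T : LinearMap.range L₁ →ₗ[ℂ] EV N :=
    ((LinearMap.ker L₁).liftQ L₂ hker) ∘ₗ (L₁.quotKerEquivRange.symm : _ →ₗ[ℂ] _)
  have hT' : ∀ c, T ⟨L₁ c, c, rfl⟩ = L₂ c := by
    intro c
    have h1 : L₁.quotKerEquivRange.symm ⟨L₁ c, c, rfl⟩ = Submodule.Quotient.mk c := by
      rw [LinearEquiv.symm_apply_eq]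
      rfl
    change ((LinearMap.ker L₁).liftQ L₂ hker) (L₁.quotKerEquivRange.symm ⟨L₁ c, c, rfl⟩) = L₂ c
    rw [h1]
    rfl
  let Ti : LinearMap.range L₁ →ₗᵢ[ℂ] EV N :=
    { toLinearMap := T
      norm_map' := by
        rintro ⟨_, c, rfl⟩
        rw [hT' c]
        exact hnorm c }
  let U : EV N →ₗᵢ[ℂ] EV N := Ti.extend
  have hU : ∀ i : Fin N, U (v i.castSucc) = v i.succ := by
    intro i
    have h1 : L₁ (Pi.single i 1) = v i.castSucc := by
      simp [L₁, Fintype.linearCombination_apply_single]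
    have h2 : L₂ (Pi.single i 1) = v i.succ := by
      simp [L₂, Fintype.linearCombination_apply_single]
    rw [← h1, ← h2]
    have h3 := Ti.extend_apply ⟨L₁ (Pi.single i 1), Pi.single i 1, rfl⟩
    change U (L₁ (Pi.single i 1)) = Ti ⟨L₁ (Pi.single i 1), Pi.single i 1, rfl⟩ at h3
    rw [h3]
    exact hT' _
  have hUk : ∀ k : ℕ, ∀ hk : k < N + 1, v ⟨k, hk⟩ = (U^[k]) (v 0) := by
    intro k
    induction k with
    | zero => intro hk; rfl
    | succ k ih =>
      intro hk
      rw [Function.iterate_succ_apply', ← ih (by omega)]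
      exact (hU ⟨k, by omega⟩).symm
  obtain ⟨s, σ, hs, hrepr⟩ := orbit_repr U (v 0)
  refine ⟨s, σ, hs, fun i j => ?_⟩
  rw [← hrepr, ← hUk i i.2, ← hUk j j.2, hv]

end Pool.Agent.Toep
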