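import Mathlib
import Pool.Agent.toep.Defs
import Pool.Agent.toep.Carath

/-! Quadratic forms of Toeplitz matrices and the constant `c_N`. -/

open scoped ComplexConjugate ENNReal InnerProductSpace
open MeasureTheory AddCircle

namespace Pool.Agent.Toep

variable {N : ℕ}

/-- the matrix as an operator -/
noncomputable abbrev opr (A : Matrix (Fin (N + 1)) (Fin (N + 1)) ℂ) : EV N →L[ℂ] EV N :=
  Matrix.toEuclideanCLM (n := Fin (N + 1)) (𝕜 := ℂ) A

theorem opr_apply (A : Matrix (Fin (N + 1)) (Fin (N + 1)) ℂ) (x : EV N) (i : Fin (N + 1)) :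
    opr A x i = ∑ j, A i j * x j := by
  have h := Matrix.ofLp_toEuclideanCLM (n := Fin (N + 1)) (𝕜 := ℂ) A x
  have h2 := congrFun h i
  rw [h2]
  rfl

theorem inner_opr (A : Matrix (Fin (N + 1)) (Fin (N + 1)) ℂ) (x : EV N) :
    ⟪x, opr A x⟫_ℂ = ∑ i, ∑ j, conj (x i) * A i j * x j := by
  rw [PiLp.inner_apply]
  refine Finset.sum_congr rfl fun i _ => ?_
  rw [opr_apply, RCLike.inner_apply, Finset.sum_mul]
  refine Finset.sum_congr rfl fun j _ => ?_
  ring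

theorem opNorm_nonneg (A : Matrix (Fin (N + 1)) (Fin (N + 1)) ℂ) : 0 ≤ opNorm A := norm_nonneg _

theorem opNorm_pos {A : Matrix (Fin (N + 1)) (Fin (N + 1)) ℂ} (hA : A ≠ 0) : 0 < opNorm A := by
  apply norm_pos_iff.mpr
  intro h
  apply hA
  exact (Matrix.toEuclideanCLM (n := Fin (N + 1)) (𝕜 := ℂ)).injective (h.trans (map_zero _).symm)

theorem norm_inner_opr_le (A : Matrix (Fin (N + 1)) (Fin (N + 1)) ℂ) (x : EV N) :
    ‖⟪x, opr A x⟫_ℂ‖ ≤ opNorm A * ‖x‖ ^ 2 := by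
  calc ‖⟪x, opr A x⟫_ℂ‖ ≤ ‖x‖ * ‖opr A x‖ := norm_inner_le_norm _ _
    _ ≤ ‖x‖ * (opNorm A * ‖x‖) :=
      mul_le_mul_of_nonneg_left ((opr A).le_opNorm x) (norm_nonneg _)
    _ = opNorm A * ‖x‖ ^ 2 := by ring

/-- A symmetric operator whose quadratic form is bounded by `lam` has norm at most `lam`. -/
theorem norm_le_of_quad {V : Type*} [NormedAddCommGroup V] [InnerProductSpace ℂ V]
    (T : V →L[ℂ] V) (hT : ∀ x y, ⟪T x, y⟫_ℂ = ⟪x, T y⟫_ℂ) {lam : ℝ} (hlam : 0 ≤ lam)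
    (h : ∀ x, |(⟪x, T x⟫_ℂ).re| ≤ lam * ‖x‖ ^ 2) : ‖T‖ ≤ lam := by
  apply ContinuousLinearMap.opNorm_le_bound _ hlam
  intro x
  by_cases hTx : T x = 0
  · rw [hTx, norm_zero]; positivity
  have hTx' : 0 < ‖T x‖ := norm_pos_iff.mpr hTx
  by_cases hx : x = 0
  · exact absurd (by rw [hx, map_zero]) hTx
  have hx' : 0 < ‖x‖ := norm_pos_iff.mpr hx
  set y : V := ((‖x‖ / ‖T x‖ : ℝ) : ℂ) • T x with hy
  have hyn : ‖y‖ = ‖x‖ := by
    rw [hy, norm_smul, Complex.norm_real, Real.norm_of_nonneg (by positivity)]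
    field_simp
  have h1 : (⟪y, T x⟫_ℂ).re = ‖x‖ * ‖T x‖ := by
    rw [hy, inner_smul_left, inner_self_eq_norm_sq_to_K, Complex.conj_ofReal]
    have h0 : (((‖x‖ / ‖T x‖ : ℝ) : ℂ) * ((‖T x‖ : ℂ)) ^ 2) = ((‖x‖ * ‖T x‖ : ℝ) : ℂ) := by
      push_cast
      have : (‖T x‖ : ℂ) ≠ 0 := by exact_mod_cast hTx'.ne'
      field_simp
    change (((‖x‖ / ‖T x‖ : ℝ) : ℂ) * ((‖T x‖ : ℂ)) ^ 2).re = _
    rw [h0, Complex.ofReal_re]
  have h2 : ⟪x + y, T (x + y)⟫_ℂ = ⟪x, T x⟫_ℂ + ⟪x, T y⟫_ℂ + ⟪y, T x⟫_ℂ + ⟪y, T y⟫_ℂ := by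
    rw [map_add, inner_add_left, inner_add_right, inner_add_right]
    ring
  have h3 : ⟪x - y, T (x - y)⟫_ℂ = ⟪x, T x⟫_ℂ - ⟪x, T y⟫_ℂ - ⟪y, T x⟫_ℂ + ⟪y, T y⟫_ℂ := by
    rw [map_sub, inner_sub_left, inner_sub_right, inner_sub_right]
    ring
  have h4 : (⟪x, T y⟫_ℂ).re = (⟪y, T x⟫_ℂ).re := by
    rw [← hT, ← inner_conj_symm (T x) y, Complex.conj_re]
  have h5 : (⟪x + y, T (x + y)⟫_ℂ).re - (⟪x - y, T (x - y)⟫_ℂ).re = 4 * (‖x‖ * ‖T x‖) := by
    rw [h2, h3, ← h1]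
    simp only [Complex.add_re, Complex.sub_re]
    rw [h4]
    ring
  have h6 := h (x + y)
  have h7 := h (x - y)
  have h8 := parallelogram_law_with_norm ℂ x y
  rw [abs_le] at h6 h7
  have h9 : 4 * (‖x‖ * ‖T x‖) ≤ lam * (2 * (‖x‖ ^ 2 + ‖y‖ ^ 2)) := by
    have : lam * (‖x + y‖ ^ 2) + lam * (‖x - y‖ ^ 2) = lam * (2 * (‖x‖ ^ 2 + ‖y‖ ^ 2)) := by
      rw [← mul_add]
      congr 1
    linarith
  rw [hyn] at h9
  have h10 : ‖x‖ * ‖T x‖ ≤ ‖x‖ * (lam * ‖x‖) := by nlinarith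
  exact le_of_mul_le_mul_left h10 hx'

theorem opr_symm {A : Matrix (Fin (N + 1)) (Fin (N + 1)) ℂ} (hA : ∀ i j, A j i = conj (A i j))
    (x y : EV N) : ⟪opr A x, y⟫_ℂ = ⟪x, opr A y⟫_ℂ := by
  rw [PiLp.inner_apply, PiLp.inner_apply]
  simp only [opr_apply, RCLike.inner_apply, map_sum, map_mul, Finset.mul_sum, Finset.sum_mul]
  rw [Finset.sum_comm]
  refine Finset.sum_congr rfl fun j _ => Finset.sum_congr rfl fun i _ => ?_
  rw [hA j i]
  simp only [Complex.conj_conj]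
  ring

theorem opNorm_le_of_quad {A : Matrix (Fin (N + 1)) (Fin (N + 1)) ℂ}
    (hA : ∀ i j, A j i = conj (A i j)) {lam : ℝ} (hlam : 0 ≤ lam)
    (h : ∀ x : EV N, |(⟪x, opr A x⟫_ℂ).re| ≤ lam * ‖x‖ ^ 2) : opNorm A ≤ lam :=
  norm_le_of_quad (opr A) (opr_symm hA) hlam h

theorem entry_le (A : Matrix (Fin (N + 1)) (Fin (N + 1)) ℂ) (i j : Fin (N + 1)) :
    ‖A i j‖ ≤ opNorm A := by
  classical
  have h1 : opr A (EuclideanSpace.single j 1) i = A i j := by
    rw [opr_apply, Finset.sum_eq_single_of_mem j (Finset.mem_univ _)]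
    · simp
    · intro b _ hb
      simp [hb]
  rw [← h1]
  calc ‖opr A (EuclideanSpace.single j 1) i‖ ≤ ‖opr A (EuclideanSpace.single j 1)‖ :=
        PiLp.norm_apply_le _ _
    _ ≤ ‖opr A‖ * ‖(EuclideanSpace.single j (1 : ℂ) : EV N)‖ := (opr A).le_opNorm _
    _ = opNorm A := by
      rw [PiLp.norm_single, norm_one, mul_one]
      rfl

theorem coef_le (a : ℤ → ℂ) (ha : ∀ n, a (-n) = conj (a n)) (n : ℤ) (hn : |n| ≤ (N : ℤ)) :
    ‖a n‖ ≤ opNorm (toep N a) := by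
  have hpos : ∀ m : ℕ, m ≤ N → ‖a m‖ ≤ opNorm (toep N a) := by
    intro m hm
    have := entry_le (toep N a) ⟨m, by omega⟩ 0
    simpa [toep] using this
  rcases le_total 0 n with h | h
  · obtain ⟨m, rfl⟩ := Int.eq_ofNat_of_zero_le h
    rw [abs_of_nonneg h] at hn
    exact hpos m (by exact_mod_cast hn)
  · obtain ⟨m, hm⟩ := Int.eq_ofNat_of_zero_le (neg_nonneg.mpr h)
    have h1 : n = -(m : ℤ) := by omega
    rw [abs_of_nonpos h, hm] at hn
    rw [h1, ha, RCLike.norm_conj]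
    exact hpos m (by exact_mod_cast hn)

theorem supNorm_nonneg (f : Circ → ℂ) : 0 ≤ supNorm f := ENNReal.toReal_nonneg

theorem cMat_nonneg (N : ℕ) (a : ℤ → ℂ) : 0 ≤ cMat N a :=
  Real.sInf_nonneg (by rintro _ ⟨f, _, _, rfl⟩; exact supNorm_nonneg f)

theorem integral_fourier (m : ℤ) :
    ∫ x : Circ, (fourier m x : ℂ) ∂haarAddCircle = if m = 0 then 1 else 0 := by
  split_ifs with h
  · subst h
    simp
  · exact integral_eq_zero_of_add_right_eq_neg (μ := haarAddCircle)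
      (fourier_add_half_inv_index h Real.two_pi_pos)

theorem fourierCoeff_fourier (k n : ℤ) :
    fourierCoeff (fourier k : Circ → ℂ) n = if k = n then 1 else 0 := by
  unfold fourierCoeff
  have h1 : ∀ t : Circ, (fourier (-n) t : ℂ) • (fourier k t : ℂ) = fourier (-n + k) t := by
    intro t
    rw [fourier_add, smul_eq_mul]
  simp_rw [h1]
  rw [integral_fourier]
  by_cases h : k = n
  · simp [h]
  · rw [if_neg h, if_neg (by omega)]

/-- pairing of a bounded function with continuous functions -/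
theorem integrable_mul {f : Circ → ℂ} (hf : MemLp f ∞ haarAddCircle) (g : C(Circ, ℂ)) :
    Integrable (fun x => f x * g x) haarAddCircle := by
  have h1 : Integrable f haarAddCircle := hf.integrable le_top
  exact h1.mul_bdd (c := ‖g‖) g.continuous.aestronglyMeasurable
    (Filter.Eventually.of_forall fun x => g.norm_coe_le_norm x)

/-- the pairing with a bounded function as a linear functional on continuous functions -/
noncomputable def pairL (f : Circ → ℂ) (hf : MemLp f ∞ haarAddCircle) : C(Circ, ℂ) →ₗ[ℂ] ℂ where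
  toFun g := ∫ x, f x * g x ∂haarAddCircle
  map_add' g h := by
    rw [← integral_add (integrable_mul hf g) (integrable_mul hf h)]
    refine integral_congr_ae (Filter.Eventually.of_forall fun x => ?_)
    simp [mul_add]
  map_smul' c g := by
    rw [RingHom.id_apply, smul_eq_mul, ← integral_const_mul]
    refine integral_congr_ae (Filter.Eventually.of_forall fun x => ?_)
    simp [mul_left_comm]

theorem pairL_apply (f : Circ → ℂ) (hf : MemLp f ∞ haarAddCircle) (g : C(Circ, ℂ)) :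
    pairL f hf g = ∫ x, f x * g x ∂haarAddCircle := rfl

theorem pairL_fourier (f : Circ → ℂ) (hf : MemLp f ∞ haarAddCircle) (k : ℤ) :
    pairL f hf (fourier k) = fourierCoeff f (-k) := by
  rw [pairL_apply]
  unfold fourierCoeff
  refine integral_congr_ae (Filter.Eventually.of_forall fun x => ?_)
  simp only [neg_neg, smul_eq_mul]
  ring

theorem ae_norm_le {f : Circ → ℂ} (hf : MemLp f ∞ haarAddCircle) :
    ∀ᵐ x ∂haarAddCircle, ‖f x‖ ≤ supNorm f := by
  have h1 : ∀ᵐ x ∂(haarAddCircle : Measure Circ), ‖f x‖ₑ ≤ eLpNormEssSup f haarAddCircle :=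
    ae_le_eLpNormEssSup
  filter_upwards [h1] with x hx
  have h2 : eLpNormEssSup f haarAddCircle = eLpNorm f ∞ haarAddCircle :=
    eLpNorm_exponent_top.symm
  rw [h2] at hx
  have h3 : eLpNorm f ∞ haarAddCircle ≠ ⊤ := hf.2.ne
  have h4 := ENNReal.toReal_mono h3 hx
  rw [toReal_enorm] at h4
  exact h4

theorem norm_pairL_le (f : Circ → ℂ) (hf : MemLp f ∞ haarAddCircle) (g : C(Circ, ℂ)) :
    ‖pairL f hf g‖ ≤ supNorm f * ∫ x, ‖g x‖ ∂haarAddCircle := by
  rw [pairL_apply, ← integral_const_mul]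
  refine norm_integral_le_of_norm_le ?_ ?_
  · refine Integrable.const_mul ?_ _
    exact g.continuous.norm.integrable_of_hasCompactSupport (HasCompactSupport.of_compactSpace _)
  · filter_upwards [ae_norm_le hf] with x hx
    rw [norm_mul]
    exact mul_le_mul_of_nonneg_right hx (norm_nonneg _)

end Pool.Agent.Toep
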