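import Mathlib
import Pool.Agent.toep.Quad

/-! The constant `c_N`: it is a genuine supremum, and it is larger than `1`. -/

open scoped ComplexConjugate ENNReal InnerProductSpace
open MeasureTheory AddCircle

namespace Pool.Agent.Toep

theorem memLp_cont (g : C(Circ, ℂ)) : MemLp (g : Circ → ℂ) ∞ haarAddCircle :=
  memLp_top_of_bound g.continuous.aestronglyMeasurable ‖g‖
    (Filter.Eventually.of_forall fun x => g.norm_coe_le_norm x)

theorem supNorm_le {f : Circ → ℂ} {C : ℝ} (hC : 0 ≤ C)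
    (h : ∀ᵐ x ∂haarAddCircle, ‖f x‖ ≤ C) : supNorm f ≤ C := by
  unfold supNorm
  rw [eLpNorm_exponent_top]
  have h1 := eLpNormEssSup_le_of_ae_bound h
  have h2 := ENNReal.toReal_mono ENNReal.ofReal_ne_top h1
  rwa [ENNReal.toReal_ofReal hC] at h2

/-- the trigonometric polynomial with coefficients `a n`, `|n| ≤ N` -/
noncomputable def tpoly (N : ℕ) (a : ℤ → ℂ) : C(Circ, ℂ) :=
  ∑ n ∈ Finset.Icc (-(N : ℤ)) N, a n • fourier n

theorem norm_tpoly_le (N : ℕ) (a : ℤ → ℂ) (x : Circ) :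
    ‖tpoly N a x‖ ≤ ∑ n ∈ Finset.Icc (-(N : ℤ)) N, ‖a n‖ := by
  have h1 : tpoly N a x = ∑ n ∈ Finset.Icc (-(N : ℤ)) N, a n * (fourier n x : ℂ) := by
    simp [tpoly, ContinuousMap.sum_apply]
  rw [h1]
  refine (norm_sum_le _ _).trans (Finset.sum_le_sum fun n _ => ?_)
  rw [norm_mul]
  have h2 : ‖(fourier n x : ℂ)‖ = 1 := by
    rw [fourier_apply]
    exact Circle.norm_coe _
  rw [h2, mul_one]

theorem fourierCoeff_tpoly (N : ℕ) (a : ℤ → ℂ) (n : ℤ) (hn : |n| ≤ (N : ℤ)) :
    fourierCoeff (tpoly N a : Circ → ℂ) n = a n := by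
  have h0 : fourierCoeff (tpoly N a : Circ → ℂ) n =
      pairL (fun x => (fourier (-n) x : ℂ)) (memLp_cont _) (tpoly N a) := by
    rw [pairL_apply]
    rfl
  rw [h0, tpoly, map_sum]
  have h1 : ∀ m, pairL (fun x => (fourier (-n) x : ℂ)) (memLp_cont _) (a m • fourier m) =
      if m = n then a m else 0 := by
    intro m
    rw [map_smul, smul_eq_mul, pairL_fourier]
    have h2 := fourierCoeff_fourier (-n) (-m)
    rw [h2]
    by_cases h : m = n
    · simp [h]
    · rw [if_neg (by omega), if_neg h, mul_zero]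
  simp_rw [h1]
  rw [Finset.sum_ite_eq' (Finset.Icc (-(N : ℤ)) N) n a, if_pos]
  rw [Finset.mem_Icc]
  exact abs_le.mp hn

theorem cMat_le (N : ℕ) (a : ℤ → ℂ) (f : Circ → ℂ) (hf : MemLp f ∞ haarAddCircle)
    (h : ∀ n : ℤ, |n| ≤ (N : ℤ) → fourierCoeff f n = a n) : cMat N a ≤ supNorm f :=
  csInf_le ⟨0, by rintro _ ⟨g, _, _, rfl⟩; exact supNorm_nonneg g⟩ ⟨f, hf, h, rfl⟩

theorem exists_near (N : ℕ) (a : ℤ → ℂ) {ε : ℝ} (hε : 0 < ε) :
    ∃ f : Circ → ℂ, MemLp f ∞ haarAddCircle ∧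
      (∀ n : ℤ, |n| ≤ (N : ℤ) → fourierCoeff f n = a n) ∧ supNorm f < cMat N a + ε := by
  have hne : {C : ℝ | ∃ f : Circ → ℂ, MemLp f ∞ haarAddCircle ∧
      (∀ n : ℤ, |n| ≤ (N : ℤ) → fourierCoeff f n = a n) ∧ supNorm f = C}.Nonempty :=
    ⟨_, tpoly N a, memLp_cont _, fun n hn => fourierCoeff_tpoly N a n hn, rfl⟩
  obtain ⟨_, ⟨f, hf, hfa, rfl⟩, hlt⟩ := Real.lt_sInf_add_pos hne hε
  exact ⟨f, hf, hfa, hlt⟩

theorem cMat_le_mul (N : ℕ) (a : ℤ → ℂ) (ha : ∀ n, a (-n) = conj (a n)) :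
    cMat N a ≤ (2 * N + 1) * opNorm (toep N a) := by
  refine (cMat_le N a _ (memLp_cont (tpoly N a)) fun n hn => fourierCoeff_tpoly N a n hn).trans ?_
  have hnn : 0 ≤ (2 * (N : ℝ) + 1) * opNorm (toep N a) :=
    mul_nonneg (by positivity) (opNorm_nonneg _)
  refine supNorm_le hnn (Filter.Eventually.of_forall fun x => ?_)
  refine (norm_tpoly_le N a x).trans ?_
  calc ∑ n ∈ Finset.Icc (-(N : ℤ)) N, ‖a n‖
      ≤ ∑ n ∈ Finset.Icc (-(N : ℤ)) N, opNorm (toep N a) := by
        refine Finset.sum_le_sum fun n hn => coef_le a ha n ?_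
        rw [Finset.mem_Icc] at hn
        exact abs_le.mpr hn
    _ = (2 * N + 1) * opNorm (toep N a) := by
        rw [Finset.sum_const, nsmul_eq_mul, Int.card_Icc]
        congr 1
        have : ((N : ℤ) + 1 - -(N : ℤ)).toNat = 2 * N + 1 := by omega
        rw [this]
        push_cast
        ring

/-- The set of ratios is bounded, so that `c_N` is a genuine supremum. -/
theorem bddAbove_ratioSet (N : ℕ) : BddAbove (ratioSet N) := by
  refine ⟨2 * N + 1, ?_⟩
  rintro _ ⟨a, ha, hne, rfl⟩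
  rw [div_le_iff₀ (opNorm_pos hne)]
  exact cMat_le_mul N a ha

theorem cMat_le_cConst (N : ℕ) (a : ℤ → ℂ) (ha : ∀ n, a (-n) = conj (a n)) :
    cMat N a ≤ cConst N * opNorm (toep N a) := by
  by_cases hne : toep N a = 0
  · have h1 : opNorm (toep N a) = 0 := by
      unfold opNorm
      rw [hne, map_zero, norm_zero]
    have h2 := cMat_le_mul N a ha
    rw [h1, mul_zero] at h2 ⊢
    exact h2
  · rw [← div_le_iff₀ (opNorm_pos hne)]
    exact le_csSup (bddAbove_ratioSet N) ⟨a, ha, hne, rfl⟩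

theorem exists_symbol (N : ℕ) (a : ℤ → ℂ) (ha : ∀ n, a (-n) = conj (a n)) {ε : ℝ} (hε : 0 < ε) :
    ∃ f : Circ → ℂ, MemLp f ∞ haarAddCircle ∧
      (∀ n : ℤ, |n| ≤ (N : ℤ) → fourierCoeff f n = a n) ∧
      supNorm f ≤ cConst N * opNorm (toep N a) + ε := by
  obtain ⟨f, hf, hfa, hlt⟩ := exists_near N a hε
  exact ⟨f, hf, hfa, by linarith [cMat_le_cConst N a ha]⟩

/-- `∫ |e_N + e_{-N}| ≤ √2`. -/
theorem l1_cos (N : ℕ) (hN : 1 ≤ N) :
    ∫ x : Circ, ‖(fourier (N : ℤ) + fourier (-(N : ℤ)) : C(Circ, ℂ)) x‖ ∂haarAddCircle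
      ≤ Real.sqrt 2 := by
  set g : C(Circ, ℂ) := fourier (N : ℤ) + fourier (-(N : ℤ)) with hg
  have hint : Integrable (fun x : Circ => ‖g x‖) haarAddCircle :=
    g.continuous.norm.integrable_of_hasCompactSupport (HasCompactSupport.of_compactSpace _)
  have hint2 : Integrable (fun x : Circ => ‖g x‖ ^ 2) haarAddCircle :=
    (g.continuous.norm.pow 2).integrable_of_hasCompactSupport (HasCompactSupport.of_compactSpace _)
  set I := ∫ x : Circ, ‖g x‖ ∂haarAddCircle with hI
  have hI0 : 0 ≤ I := integral_nonneg fun x => norm_nonneg _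
  -- the second moment
  have h2 : ∫ x : Circ, ‖g x‖ ^ 2 ∂haarAddCircle = 2 := by
    have h3 : ∀ x : Circ, ((‖g x‖ ^ 2 : ℝ) : ℂ) =
        2 + (fourier (2 * N : ℤ) x : ℂ) + (fourier (-(2 * N : ℤ)) x : ℂ) := by
      intro x
      have h4 : ((‖g x‖ ^ 2 : ℝ) : ℂ) = g x * conj (g x) := by
        rw [Complex.mul_conj, Complex.normSq_eq_norm_sq]
      have h5 : g x = (fourier (N : ℤ) x : ℂ) + (fourier (-(N : ℤ)) x : ℂ) := rfl
      have h6 : conj (fourier (N : ℤ) x : ℂ) = fourier (-(N : ℤ)) x := fourier_neg.symm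
      have h7 : conj (fourier (-(N : ℤ)) x : ℂ) = fourier (N : ℤ) x := by
        rw [← fourier_neg, neg_neg]
      have h8 : (fourier (N : ℤ) x : ℂ) * fourier (-(N : ℤ)) x = 1 := by
        rw [← fourier_add, add_neg_cancel, fourier_zero]
      have h9 : (fourier (N : ℤ) x : ℂ) * fourier (N : ℤ) x = fourier (2 * N : ℤ) x := by
        have e1 : (2 * N : ℤ) = N + N := by ring
        rw [e1, fourier_add]
      have h10 : (fourier (-(N : ℤ)) x : ℂ) * fourier (-(N : ℤ)) x = fourier (-(2 * N : ℤ)) x := by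
        have e1 : (-(2 * N) : ℤ) = -N + -N := by ring
        rw [e1, fourier_add]
      rw [h4, h5, map_add, h6, h7, ← h9, ← h10]
      linear_combination 2 * h8
    have h4 : ((∫ x : Circ, ‖g x‖ ^ 2 ∂haarAddCircle : ℝ) : ℂ) = 2 := by
      rw [← integral_complex_ofReal]
      simp_rw [h3]
      have i1 : Integrable (fun x : Circ => (fourier (2 * N : ℤ) x : ℂ)) haarAddCircle :=
        (fourier (2 * N : ℤ)).continuous.integrable_of_hasCompactSupport
          (HasCompactSupport.of_compactSpace _)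
      have i2 : Integrable (fun x : Circ => (fourier (-(2 * N : ℤ)) x : ℂ)) haarAddCircle :=
        (fourier (-(2 * N : ℤ))).continuous.integrable_of_hasCompactSupport
          (HasCompactSupport.of_compactSpace _)
      have i3 : Integrable (fun _ : Circ => (2 : ℂ)) haarAddCircle := integrable_const _
      have i4 : Integrable (fun x : Circ => (2 : ℂ) + (fourier (2 * N : ℤ) x : ℂ)) haarAddCircle :=
        i3.add i1
      rw [integral_add i4 i2, integral_add i3 i1, integral_fourier, integral_fourier,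
        if_neg (by omega), if_neg (by omega), integral_const]
      simp
    exact_mod_cast h4
  -- Cauchy-Schwarz
  have h3 : I ^ 2 ≤ 2 := by
    have h4 : 0 ≤ ∫ x : Circ, (‖g x‖ - I) ^ 2 ∂haarAddCircle :=
      integral_nonneg fun x => sq_nonneg _
    have h5 : ∫ x : Circ, (‖g x‖ - I) ^ 2 ∂haarAddCircle = 2 - I ^ 2 := by
      have h6 : ∀ x : Circ, (‖g x‖ - I) ^ 2 = ‖g x‖ ^ 2 - (2 * I) * ‖g x‖ + I ^ 2 := by
        intro x; ring
      simp_rw [h6]
      have i1 : Integrable (fun x : Circ => (2 * I) * ‖g x‖) haarAddCircle := hint.const_mul _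
      have i2 : Integrable (fun x : Circ => ‖g x‖ ^ 2 - (2 * I) * ‖g x‖) haarAddCircle :=
        hint2.sub i1
      rw [integral_add i2 (integrable_const _), integral_sub hint2 i1, integral_const_mul, h2,
        integral_const]
      simp only [probReal_univ, one_smul]
      rw [← hI]
      ring
    linarith
  exact Real.le_sqrt_of_sq_le h3

/-- `c_N > 1` for `N ≥ 1`. -/
theorem one_lt_cConst (N : ℕ) (hN : 1 ≤ N) : 1 < cConst N := by
  classical
  let a : ℤ → ℂ := fun n => if |n| = (N : ℤ) then 1 else 0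
  have ha : ∀ n, a (-n) = conj (a n) := by
    intro n
    simp only [a, abs_neg]
    by_cases h : |n| = (N : ℤ) <;> simp [h]
  -- the matrix norm is at most one
  have hop : opNorm (toep N a) ≤ 1 := by
    apply ContinuousLinearMap.opNorm_le_bound _ zero_le_one
    intro x
    rw [one_mul]
    have hentry : ∀ i, ‖opr (toep N a) x i‖ ≤ ‖x (Fin.rev i)‖ := by
      intro i
      rw [opr_apply, Finset.sum_eq_single_of_mem (Fin.rev i) (Finset.mem_univ _)]
      · rw [norm_mul]
        have h1 : ‖toep N a i (Fin.rev i)‖ ≤ 1 := by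
          change ‖a ((i : ℤ) - ((Fin.rev i : Fin (N + 1)) : ℤ))‖ ≤ 1
          simp only [a]
          split_ifs <;> simp
        calc ‖toep N a i (Fin.rev i)‖ * ‖x (Fin.rev i)‖ ≤ 1 * ‖x (Fin.rev i)‖ :=
              mul_le_mul_of_nonneg_right h1 (norm_nonneg _)
          _ = ‖x (Fin.rev i)‖ := one_mul _
      · intro j _ hj
        have h1 : toep N a i j = 0 := by
          change a ((i : ℤ) - (j : ℤ)) = 0
          simp only [a]
          rw [if_neg]
          intro h2
          apply hj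
          apply Fin.ext
          rw [Fin.val_rev]
          have h3 := i.2
          have h4 := j.2
          rcases abs_cases ((i : ℤ) - (j : ℤ)) with ⟨h5, _⟩ | ⟨h5, _⟩ <;> omega
        rw [h1, zero_mul]
    have h1 : ‖opr (toep N a) x‖ ^ 2 ≤ ‖x‖ ^ 2 := by
      rw [EuclideanSpace.norm_sq_eq, EuclideanSpace.norm_sq_eq]
      calc ∑ i, ‖opr (toep N a) x i‖ ^ 2 ≤ ∑ i, ‖x (Fin.rev i)‖ ^ 2 :=
            Finset.sum_le_sum fun i _ => pow_le_pow_left₀ (norm_nonneg _) (hentry i) 2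
        _ = ∑ i, ‖x i‖ ^ 2 := Equiv.sum_comp Fin.revPerm (fun i => ‖x i‖ ^ 2)
    exact (pow_le_pow_iff_left₀ (norm_nonneg _) (norm_nonneg _) two_ne_zero).mp h1
  have hc : Real.sqrt 2 ≤ cMat N a := by
    apply le_csInf
    · exact ⟨_, tpoly N a, memLp_cont _, fun n hn => fourierCoeff_tpoly N a n hn, rfl⟩
    · rintro _ ⟨f, hf, hfa, rfl⟩
      have h1 : pairL f hf (fourier (N : ℤ) + fourier (-(N : ℤ))) = 2 := by
        rw [map_add, pairL_fourier, pairL_fourier, neg_neg, hfa _ (by simp), hfa _ (by simp)]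
        simp only [a, abs_neg, Nat.abs_cast, if_true]
        norm_num
      have h2 := norm_pairL_le f hf (fourier (N : ℤ) + fourier (-(N : ℤ)))
      rw [h1] at h2
      have h3 := l1_cos N hN
      have h4 : supNorm f * ∫ x : Circ,
          ‖(fourier (N : ℤ) + fourier (-(N : ℤ)) : C(Circ, ℂ)) x‖ ∂haarAddCircle ≤
          supNorm f * Real.sqrt 2 := mul_le_mul_of_nonneg_left h3 (supNorm_nonneg f)
      have h5 : (2 : ℝ) ≤ supNorm f * Real.sqrt 2 := by
        have : ‖(2 : ℂ)‖ = 2 := by norm_num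
        linarith
      have h6 : Real.sqrt 2 * Real.sqrt 2 = 2 := Real.mul_self_sqrt (by norm_num)
      have h7 : 0 < Real.sqrt 2 := by positivity
      by_contra hcon
      rw [not_le] at hcon
      have := mul_lt_mul_of_pos_right hcon h7
      linarith
  have h1 := cMat_le_cConst N a ha
  have h2 : (1 : ℝ) < Real.sqrt 2 := by
    rw [Real.lt_sqrt (by norm_num)]
    norm_num
  have h3 : 0 ≤ cConst N := by
    by_contra hcon
    rw [not_le] at hcon
    have := mul_nonpos_of_nonpos_of_nonneg hcon.le (opNorm_nonneg (toep N a))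
    linarith
  have h4 : cConst N * opNorm (toep N a) ≤ cConst N * 1 := mul_le_mul_of_nonneg_left hop h3
  linarith

end Pool.Agent.Toep
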