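import Mathlib
import Pool.Agent.toep.CN

/-! Trigonometric polynomials adapted to alternating step functions. -/

open scoped ComplexConjugate ENNReal InnerProductSpace
open MeasureTheory AddCircle

namespace Pool.Agent.Toep

/-- complex trigonometric polynomials of degree at most `N` -/
noncomputable def TP (N : ℕ) : Submodule ℂ C(Circ, ℂ) :=
  Submodule.span ℂ {g | ∃ k : ℤ, |k| ≤ (N : ℤ) ∧ g = fourier k}

theorem fourier_mem_TP {N : ℕ} {k : ℤ} (hk : |k| ≤ (N : ℤ)) : (fourier k : C(Circ, ℂ)) ∈ TP N :=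
  Submodule.subset_span ⟨k, hk, rfl⟩

theorem TP_mono {a b : ℕ} (h : a ≤ b) : TP a ≤ TP b := by
  apply Submodule.span_mono
  rintro _ ⟨k, hk, rfl⟩
  exact ⟨k, hk.trans (by exact_mod_cast h), rfl⟩

theorem TP_mul {a b : ℕ} {g h : C(Circ, ℂ)} (hg : g ∈ TP a) (hh : h ∈ TP b) :
    g * h ∈ TP (a + b) := by
  have h1 : g * h ∈ TP a * TP b := Submodule.mul_mem_mul hg hh
  have h2 : TP a * TP b ≤ TP (a + b) := by
    unfold TP
    rw [Submodule.span_mul_span, Submodule.span_le]
    rintro _ ⟨_, ⟨k, hk, rfl⟩, _, ⟨l, hl, rfl⟩, rfl⟩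
    apply Submodule.subset_span
    refine ⟨k + l, ?_, ?_⟩
    · push_cast
      exact (abs_add_le k l).trans (add_le_add hk hl)
    · ext x
      exact (fourier_add (m := k) (n := l) (x := x)).symm
  exact h2 h1

/-- two linear functionals agreeing on the exponentials agree on trigonometric polynomials -/
theorem TP_ext {N : ℕ} (Φ Ψ : C(Circ, ℂ) →ₗ[ℂ] ℂ)
    (h : ∀ k : ℤ, |k| ≤ (N : ℤ) → Φ (fourier k) = Ψ (fourier k)) {g : C(Circ, ℂ)}
    (hg : g ∈ TP N) : Φ g = Ψ g := by
  have h1 : Set.EqOn Φ Ψ (TP N : Set C(Circ, ℂ)) := by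
    apply LinearMap.eqOn_span
    rintro _ ⟨k, hk, rfl⟩
    exact h k hk
  exact h1 hg

/-- the function `cos (x - m)` -/
noncomputable def cosF (m : ℝ) : C(Circ, ℂ) :=
  (1 / 2 * Complex.exp (-(m * Complex.I))) • fourier 1 +
    (1 / 2 * Complex.exp (m * Complex.I)) • fourier (-1)

theorem fourier_coe (n : ℤ) (x : ℝ) :
    (fourier n (x : Circ) : ℂ) = Complex.exp (n * x * Complex.I) := by
  rw [fourier_coe_apply]
  congr 1
  have h : (Real.pi : ℂ) ≠ 0 := by exact_mod_cast Real.pi_ne_zero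
  push_cast
  field_simp

theorem cosF_coe (m x : ℝ) : cosF m (x : Circ) = (Real.cos (x - m) : ℂ) := by
  have h1 : cosF m (x : Circ) = (1 / 2 * Complex.exp (-(m * Complex.I))) * fourier 1 (x : Circ) +
    (1 / 2 * Complex.exp (m * Complex.I)) * fourier (-1) (x : Circ) := rfl
  rw [h1, fourier_coe, fourier_coe, Complex.ofReal_cos, Complex.cos]
  push_cast
  have h2 : Complex.exp (-(m * Complex.I)) * Complex.exp (1 * x * Complex.I) =
      Complex.exp ((x - m) * Complex.I) := by
    rw [← Complex.exp_add]; congr 1; ring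
  have h3 : Complex.exp (m * Complex.I) * Complex.exp (-1 * x * Complex.I) =
      Complex.exp (-(x - m) * Complex.I) := by
    rw [← Complex.exp_add]; congr 1; ring
  rw [← h2, ← h3]
  ring

theorem cosF_mem (m : ℝ) : cosF m ∈ TP 1 := by
  apply Submodule.add_mem
  · exact Submodule.smul_mem _ _ (fourier_mem_TP (by simp))
  · exact Submodule.smul_mem _ _ (fourier_mem_TP (by simp))

theorem one_mem_TP (N : ℕ) : (1 : C(Circ, ℂ)) ∈ TP N := by
  have h1 : (1 : C(Circ, ℂ)) = fourier 0 := by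
    ext x
    rw [fourier_zero]
    rfl
  rw [h1]
  exact fourier_mem_TP (by simp)

/-- the basic factor `cos d - cos (x - m)` -/
noncomputable def fac (m d : ℝ) : C(Circ, ℂ) := (Real.cos d : ℂ) • 1 - cosF m

theorem fac_mem (m d : ℝ) : fac m d ∈ TP 1 :=
  Submodule.sub_mem _ (Submodule.smul_mem _ _ (one_mem_TP 1)) (cosF_mem m)

theorem fac_coe (m d x : ℝ) : fac m d (x : Circ) = ((Real.cos d - Real.cos (x - m) : ℝ) : ℂ) := by
  have h1 : fac m d (x : Circ) = (Real.cos d : ℂ) * 1 - cosF m (x : Circ) := rfl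
  rw [h1, cosF_coe, mul_one, Complex.ofReal_sub]

theorem prod_mem_TP (n : ℕ) (m d : ℕ → ℝ) :
    ∏ i ∈ Finset.range n, fac (m i) (d i) ∈ TP n := by
  induction n with
  | zero => simpa using one_mem_TP 0
  | succ n ih =>
    rw [Finset.prod_range_succ]
    exact TP_mul ih (fac_mem _ _)

theorem prod_coe (n : ℕ) (m d : ℕ → ℝ) (x : ℝ) :
    (∏ i ∈ Finset.range n, fac (m i) (d i)) (x : Circ) =
      ((∏ i ∈ Finset.range n, (Real.cos (d i) - Real.cos (x - m i)) : ℝ) : ℂ) := by
  rw [ContinuousMap.prod_apply, Complex.ofReal_prod]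
  exact Finset.prod_congr rfl fun i _ => fac_coe _ _ _

/-- signs of the basic factor -/
theorem fac_neg {a b x : ℝ} (hab : b - a < 2 * Real.pi) (hx : x ∈ Set.Ioo a b) :
    Real.cos ((b - a) / 2) - Real.cos (x - (a + b) / 2) < 0 := by
  obtain ⟨h1, h2⟩ := hx
  have h3 : |x - (a + b) / 2| < (b - a) / 2 := by
    rw [abs_lt]; constructor <;> linarith
  rw [← Real.cos_abs (x - (a + b) / 2)]
  have h4 := Real.strictAntiOn_cos (a := |x - (a + b) / 2|) (b := (b - a) / 2)
    ⟨abs_nonneg _, by linarith⟩ ⟨by linarith [abs_nonneg (x - (a + b) / 2)], by linarith⟩ h3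
  linarith

theorem fac_pos {a b x : ℝ} (hab : a < b) (h : (b < x ∧ x < a + 2 * Real.pi) ∨
    (b - 2 * Real.pi < x ∧ x < a)) :
    0 < Real.cos ((b - a) / 2) - Real.cos (x - (a + b) / 2) := by
  -- reduce to `cos y < cos d` for `d < y < 2π - d`
  have key : ∀ d y : ℝ, 0 < d → d < y → y < 2 * Real.pi - d → Real.cos y < Real.cos d := by
    intro d y hd h1 h2
    rcases le_total y Real.pi with h3 | h3
    · exact Real.strictAntiOn_cos ⟨hd.le, by linarith⟩ ⟨by linarith, h3⟩ h1
    · have h4 : Real.cos y = Real.cos (2 * Real.pi - y) := by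
        rw [Real.cos_two_pi_sub]
      rw [h4]
      exact Real.strictAntiOn_cos ⟨hd.le, by linarith⟩ ⟨by linarith, by linarith⟩ (by linarith)
  rcases h with ⟨h1, h2⟩ | ⟨h1, h2⟩
  · have := key ((b - a) / 2) (x - (a + b) / 2) (by linarith) (by linarith) (by linarith)
    linarith
  · have := key ((b - a) / 2) ((a + b) / 2 - x) (by linarith) (by linarith) (by linarith)
    have h3 : Real.cos (x - (a + b) / 2) = Real.cos ((a + b) / 2 - x) := by
      rw [← Real.cos_neg]; congr 1; ring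
    linarith

/-- the points `t` are increasing -/
theorem t_mono {M : ℕ} {t : ℕ → ℝ} (ht : ∀ j < M, t j < t (j + 1)) {i j : ℕ} (hij : i < j)
    (hj : j ≤ M) : t i < t j := by
  induction j with
  | zero => omega
  | succ j ih =>
    rcases Nat.lt_or_ge i j with h | h
    · exact (ih h (by omega)).trans (ht j (by omega))
    · have : i = j := by omega
      subst this
      exact ht i (by omega)

theorem t_mono_le {M : ℕ} {t : ℕ → ℝ} (ht : ∀ j < M, t j < t (j + 1)) {i j : ℕ} (hij : i ≤ j)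
    (hj : j ≤ M) : t i ≤ t j := by
  rcases Nat.lt_or_ge i j with h | h
  · exact (t_mono ht h hj).le
  · have : i = j := by omega
    rw [this]

/-- The trigonometric polynomial of degree `n` changing sign at the points `t j`. -/
noncomputable def qpoly (n : ℕ) (t : ℕ → ℝ) : C(Circ, ℂ) :=
  -∏ i ∈ Finset.range n, fac ((t (2 * i) + t (2 * i + 1)) / 2) ((t (2 * i + 1) - t (2 * i)) / 2)

theorem qpoly_mem (n : ℕ) (t : ℕ → ℝ) : qpoly n t ∈ TP n :=
  Submodule.neg_mem _ (prod_mem_TP n _ _)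

/-- its real values -/
noncomputable def qreal (n : ℕ) (t : ℕ → ℝ) (x : ℝ) : ℝ :=
  -∏ i ∈ Finset.range n, (Real.cos ((t (2 * i + 1) - t (2 * i)) / 2) -
    Real.cos (x - (t (2 * i) + t (2 * i + 1)) / 2))

theorem qpoly_coe (n : ℕ) (t : ℕ → ℝ) (x : ℝ) : qpoly n t (x : Circ) = (qreal n t x : ℂ) := by
  have h1 : qpoly n t (x : Circ) = -(∏ i ∈ Finset.range n,
    fac ((t (2 * i) + t (2 * i + 1)) / 2) ((t (2 * i + 1) - t (2 * i)) / 2)) (x : Circ) := rfl
  rw [h1, prod_coe, qreal, Complex.ofReal_neg]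

theorem qreal_sign {n : ℕ} {t : ℕ → ℝ} (ht : ∀ j < 2 * n, t j < t (j + 1))
    (ht2 : t (2 * n) = t 0 + 2 * Real.pi) {j : ℕ} (hj : j < 2 * n) {x : ℝ}
    (hx : x ∈ Set.Ioo (t j) (t (j + 1))) : 0 < (-1) ^ j * qreal n t x := by
  have hother : ∀ i < n, 2 * i ≠ j → 0 < Real.cos ((t (2 * i + 1) - t (2 * i)) / 2) -
      Real.cos (x - (t (2 * i) + t (2 * i + 1)) / 2) := by
    intro i hi hij
    apply fac_pos (ht (2 * i) (by omega))
    rcases Nat.lt_or_ge j (2 * i) with h | h
    · right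
      have h1 : t (j + 1) ≤ t (2 * i) := t_mono_le ht (by omega) (by omega)
      have h2 : t 0 ≤ t j := t_mono_le ht (by omega) (by omega)
      have h3 : t (2 * i + 1) ≤ t (2 * n) := t_mono_le ht (by omega) (by omega)
      exact ⟨by linarith [hx.1], by linarith [hx.2]⟩
    · left
      have h1 : t (2 * i + 1) ≤ t j := t_mono_le ht (by omega) (by omega)
      have h2 : t (j + 1) ≤ t (2 * n) := t_mono_le ht (by omega) (by omega)
      have h3 : t 0 ≤ t (2 * i) := t_mono_le ht (by omega) (by omega)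
      exact ⟨by linarith [hx.1], by linarith [hx.2]⟩
  rcases Nat.even_or_odd j with ⟨i, hi⟩ | ⟨i, hi⟩
  · have hi' : j = 2 * i := by omega
    subst hi'
    have h1 : ((-1 : ℝ)) ^ (2 * i) = 1 := by rw [pow_mul]; simp
    rw [h1, one_mul, qreal, neg_pos, ← Finset.mul_prod_erase _ _ (Finset.mem_range.mpr (by omega : i < n))]
    apply mul_neg_of_neg_of_pos
    · apply fac_neg _ hx
      have h2 : t (2 * i + 1) ≤ t (2 * n) := t_mono_le ht (by omega) (by omega)
      have h3 : t 0 ≤ t (2 * i) := t_mono_le ht (by omega) (by omega)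
      rcases Nat.eq_zero_or_pos i with h0 | h0
      · subst h0
        have h4 : t 1 < t (2 * n) := t_mono ht (by omega) (by omega)
        simp only [mul_zero, zero_add]
        linarith
      · have h4 : t 0 < t (2 * i) := t_mono ht (by omega) (by omega)
        linarith
    · apply Finset.prod_pos
      intro k hk
      rw [Finset.mem_erase, Finset.mem_range] at hk
      exact hother k hk.2 (by omega)
  · have h1 : ((-1 : ℝ)) ^ j = -1 := by rw [hi]; exact Odd.neg_one_pow ⟨i, rfl⟩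
    rw [h1, qreal, neg_mul_neg, one_mul]
    apply Finset.prod_pos
    intro k hk
    rw [Finset.mem_range] at hk
    exact hother k hk (by omega)

theorem haar_singleton (x : Circ) : haarAddCircle ({x} : Set Circ) = 0 := by
  have h1 : (volume : Measure Circ) (Metric.closedBall x 0) = 0 := by
    rw [AddCircle.volume_closedBall]
    simp [Real.pi_pos.le]
  rw [Metric.closedBall_zero, volume_eq_smul_haarAddCircle, Measure.smul_apply, smul_eq_mul,
    mul_eq_zero] at h1
  rcases h1 with h1 | h1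
  · rw [ENNReal.ofReal_eq_zero] at h1
    linarith [Real.two_pi_pos]
  · exact h1

/-- every point of the circle lies in an open arc or is an end point -/
theorem circ_cover {n : ℕ} {t : ℕ → ℝ}
    (ht2 : t (2 * n) = t 0 + 2 * Real.pi) (y : Circ) :
    (∃ j < 2 * n, ∃ x ∈ Set.Ioo (t j) (t (j + 1)), (x : Circ) = y) ∨
      ∃ j < 2 * n, (t j : Circ) = y := by
  classical
  set x := (AddCircle.equivIco (2 * Real.pi) (t 0) y : ℝ) with hx
  have hx1 : x ∈ Set.Ico (t 0) (t 0 + 2 * Real.pi) := (AddCircle.equivIco (2 * Real.pi) (t 0) y).2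
  have hx2 : (x : Circ) = y := AddCircle.coe_equivIco
  have hex : ∃ k, x < t k := ⟨2 * n, by rw [ht2]; exact hx1.2⟩
  have hk := Nat.find_spec hex
  have hk1 : Nat.find hex ≤ 2 * n := Nat.find_min' hex (by rw [ht2]; exact hx1.2)
  have hk0 : Nat.find hex ≠ 0 := by
    intro h0
    rw [h0] at hk
    exact absurd hk (not_lt.mpr hx1.1)
  obtain ⟨j, hj⟩ := Nat.exists_eq_succ_of_ne_zero hk0
  have hj1 : ¬ x < t j := Nat.find_min hex (by omega)
  rw [hj] at hk
  have hj2 : j < 2 * n := by omega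
  rcases (not_lt.mp hj1).lt_or_eq with h | h
  · exact Or.inl ⟨j, hj2, x, ⟨h, hk⟩, hx2⟩
  · exact Or.inr ⟨j, hj2, by rw [h]; exact hx2⟩

theorem ae_arc {n : ℕ} {t : ℕ → ℝ}
    (ht2 : t (2 * n) = t 0 + 2 * Real.pi) :
    ∀ᵐ y : Circ ∂haarAddCircle, ∃ j < 2 * n, ∃ x ∈ Set.Ioo (t j) (t (j + 1)), (x : Circ) = y := by
  have h1 : haarAddCircle (⋃ j ∈ Finset.range (2 * n), {(t j : Circ)}) = 0 := by
    refine le_antisymm ((measure_biUnion_finset_le _ _).trans ?_) zero_le
    rw [Finset.sum_eq_zero fun j _ => haar_singleton _]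
  rw [ae_iff]
  refine measure_mono_null ?_ h1
  intro y hy
  rcases circ_cover ht2 y with h | ⟨j, hj, h⟩
  · exact absurd h hy
  · simp only [Set.mem_iUnion]
    exact ⟨j, Finset.mem_range.mpr hj, h.symm⟩

end Pool.Agent.Toep
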