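import Mathlib
import Pool.Agent.toep.Step

/-! The main argument. -/

open scoped ComplexConjugate ENNReal InnerProductSpace ComplexOrder
open MeasureTheory AddCircle

namespace Pool.Agent.Toep

/-- the Fourier coefficients of a real function are Hermitian -/
theorem coef_conj (ψ : Circ → ℝ) (n : ℤ) :
    fourierCoeff (fun x => (ψ x : ℂ)) (-n) = conj (fourierCoeff (fun x => (ψ x : ℂ)) n) := by
  unfold fourierCoeff
  rw [← integral_conj]
  refine integral_congr_ae (Filter.Eventually.of_forall fun x => ?_)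
  simp only [smul_eq_mul, map_mul, Complex.conj_ofReal]
  rw [← fourier_neg, neg_neg]

/-- the point of the circle with coordinate `w` -/
noncomputable def pt (w : ℂ) : Circ := ((Complex.arg w : ℝ) : Circ)

theorem fourier_pt {w : ℂ} (hw : ‖w‖ = 1) (k : ℤ) : (fourier k (pt w) : ℂ) = w ^ k := by
  have h1 : Complex.exp (Complex.arg w * Complex.I) = w := by
    have := Complex.norm_mul_exp_arg_mul_I w
    rwa [hw, Complex.ofReal_one, one_mul] at this
  rw [pt, fourier_coe]
  conv_rhs => rw [← h1]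
  rw [← Complex.exp_int_mul]
  congr 1
  ring

/-- evaluation as a linear functional -/
noncomputable def evL (y : Circ) : C(Circ, ℂ) →ₗ[ℂ] ℂ where
  toFun g := g y
  map_add' _ _ := rfl
  map_smul' _ _ := rfl

theorem evL_apply (y : Circ) (g : C(Circ, ℂ)) : evL y g = g y := rfl

/-- the integral as a linear functional -/
noncomputable def intL : C(Circ, ℂ) →ₗ[ℂ] ℂ := pairL (1 : C(Circ, ℂ)) (memLp_cont 1)

theorem intL_apply (g : C(Circ, ℂ)) : intL g = ∫ x, g x ∂haarAddCircle := by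
  have h1 : intL g = ∫ x, (1 : C(Circ, ℂ)) x * g x ∂haarAddCircle := rfl
  rw [h1]
  simp only [ContinuousMap.one_apply, one_mul]

/-- quadratic form of a sum of rank-one Toeplitz matrices -/
theorem quad_rank {N : ℕ} (s : Finset ℂ) (σ : ℂ → ℝ) (x : EV N) :
    ∑ i : Fin (N + 1), ∑ j : Fin (N + 1),
      conj (x i) * (∑ w ∈ s, (σ w : ℂ) * (conj w) ^ (i : ℕ) * w ^ (j : ℕ)) * x j =
    ((∑ w ∈ s, σ w * ‖∑ j : Fin (N + 1), w ^ (j : ℕ) * x j‖ ^ 2 : ℝ) : ℂ) := by
  have h1 : ∀ w : ℂ, ((‖∑ j : Fin (N + 1), w ^ (j : ℕ) * x j‖ ^ 2 : ℝ) : ℂ) =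
      (∑ i : Fin (N + 1), conj (x i) * (conj w) ^ (i : ℕ)) *
        ∑ j : Fin (N + 1), w ^ (j : ℕ) * x j := by
    intro w
    have h2 : (∑ i : Fin (N + 1), conj (x i) * (conj w) ^ (i : ℕ)) =
        conj (∑ j : Fin (N + 1), w ^ (j : ℕ) * x j) := by
      rw [map_sum]
      refine Finset.sum_congr rfl fun i _ => ?_
      rw [map_mul, map_pow, mul_comm]
    rw [h2, mul_comm, Complex.mul_conj, Complex.normSq_eq_norm_sq]
  calc ∑ i : Fin (N + 1), ∑ j : Fin (N + 1),
      conj (x i) * (∑ w ∈ s, (σ w : ℂ) * (conj w) ^ (i : ℕ) * w ^ (j : ℕ)) * x j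
      = ∑ i : Fin (N + 1), ∑ j : Fin (N + 1), ∑ w ∈ s,
        (σ w : ℂ) * ((conj (x i) * (conj w) ^ (i : ℕ)) * (w ^ (j : ℕ) * x j)) := by
        refine Finset.sum_congr rfl fun i _ => Finset.sum_congr rfl fun j _ => ?_
        rw [Finset.mul_sum, Finset.sum_mul]
        refine Finset.sum_congr rfl fun w _ => ?_
        ring
    _ = ∑ i : Fin (N + 1), ∑ w ∈ s, ∑ j : Fin (N + 1),
        (σ w : ℂ) * ((conj (x i) * (conj w) ^ (i : ℕ)) * (w ^ (j : ℕ) * x j)) :=
        Finset.sum_congr rfl fun i _ => Finset.sum_comm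
    _ = ∑ w ∈ s, ∑ i : Fin (N + 1), ∑ j : Fin (N + 1),
        (σ w : ℂ) * ((conj (x i) * (conj w) ^ (i : ℕ)) * (w ^ (j : ℕ) * x j)) := Finset.sum_comm
    _ = ((∑ w ∈ s, σ w * ‖∑ j : Fin (N + 1), w ^ (j : ℕ) * x j‖ ^ 2 : ℝ) : ℂ) := by
        rw [Complex.ofReal_sum]
        refine Finset.sum_congr rfl fun w _ => ?_
        rw [Complex.ofReal_mul, h1, Finset.sum_mul_sum, Finset.mul_sum]
        refine Finset.sum_congr rfl fun i _ => ?_
        rw [Finset.mul_sum]

theorem norm_sq_eq_sum {N : ℕ} (x : EV N) :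
    ((‖x‖ ^ 2 : ℝ) : ℂ) = ∑ i : Fin (N + 1), conj (x i) * x i := by
  rw [EuclideanSpace.norm_sq_eq, Complex.ofReal_sum]
  refine Finset.sum_congr rfl fun i _ => ?_
  rw [mul_comm, Complex.mul_conj, Complex.normSq_eq_norm_sq]

/-- **The key matrix step.** Let `b` be a Hermitian sequence with `‖toep N b‖ ≤ lam`. Then
`lam + b` is represented on trigonometric polynomials of degree at most `N` by a positive
combination of point evaluations, and each of the point masses can be removed from `b`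
without making the norm larger than `lam`. -/
theorem key_matrix (N : ℕ) (b : ℤ → ℂ) (hb : ∀ n, b (-n) = conj (b n)) (lam : ℝ)
    (hlam : opNorm (toep N b) ≤ lam) :
    ∃ (s : Finset ℂ) (σ : ℂ → ℝ), (∀ w ∈ s, ‖w‖ = 1 ∧ 0 < σ w) ∧
      (∀ k : ℤ, |k| ≤ (N : ℤ) →
        (lam : ℂ) * (if k = 0 then 1 else 0) + b (-k) = ∑ w ∈ s, (σ w : ℂ) * fourier k (pt w)) ∧
      ∀ w ∈ s, opNorm (toep N fun n => b n - σ w * fourier (-n) (pt w)) ≤ lam := by
  classical
  have hlam0 : 0 ≤ lam := (opNorm_nonneg _).trans hlam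
  set M : Matrix (Fin (N + 1)) (Fin (N + 1)) ℂ := Matrix.of fun i j =>
    (if i = j then (lam : ℂ) else 0) + b ((i : ℤ) - (j : ℤ)) with hM
  have hMapp : ∀ i j, M i j = (if i = j then (lam : ℂ) else 0) + b ((i : ℤ) - (j : ℤ)) :=
    fun i j => rfl
  -- the quadratic form of M
  have hquad : ∀ x : EV N, ∑ i, ∑ j, conj (x i) * M i j * x j =
      ((lam * ‖x‖ ^ 2 : ℝ) : ℂ) + ⟪x, opr (toep N b) x⟫_ℂ := by
    intro x
    rw [inner_opr, Complex.ofReal_mul, norm_sq_eq_sum, Finset.mul_sum, ← Finset.sum_add_distrib]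
    refine Finset.sum_congr rfl fun i _ => ?_
    have h1 : ∀ j, conj (x i) * M i j * x j = (if i = j then conj (x i) * (lam : ℂ) * x j else 0) +
        conj (x i) * toep N b i j * x j := by
      intro j
      rw [hMapp]
      change _ = _ + conj (x i) * b ((i : ℤ) - (j : ℤ)) * x j
      split_ifs <;> ring
    simp_rw [h1]
    rw [Finset.sum_add_distrib, Finset.sum_ite_eq Finset.univ i, if_pos (Finset.mem_univ _)]
    ring
  have htoepH : ∀ (c : ℤ → ℂ), (∀ n, c (-n) = conj (c n)) → ∀ i j, toep N c j i = conj (toep N c i j) := by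
    intro c hc i j
    change c ((j : ℤ) - (i : ℤ)) = conj (c ((i : ℤ) - (j : ℤ)))
    rw [← hc]
    congr 1
    ring
  have him : ∀ (c : ℤ → ℂ), (∀ n, c (-n) = conj (c n)) → ∀ x : EV N,
      ⟪x, opr (toep N c) x⟫_ℂ = ((⟪x, opr (toep N c) x⟫_ℂ).re : ℂ) := by
    intro c hc x
    have h1 := opr_symm (htoepH c hc) x x
    have h2 : conj ⟪x, opr (toep N c) x⟫_ℂ = ⟪x, opr (toep N c) x⟫_ℂ := by
      rw [inner_conj_symm]
      exact h1
    exact (Complex.conj_eq_iff_re.mp h2).symm
  have hreb : ∀ x : EV N, |(⟪x, opr (toep N b) x⟫_ℂ).re| ≤ lam * ‖x‖ ^ 2 := by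
    intro x
    calc |(⟪x, opr (toep N b) x⟫_ℂ).re| ≤ ‖⟪x, opr (toep N b) x⟫_ℂ‖ := Complex.abs_re_le_norm _
      _ ≤ opNorm (toep N b) * ‖x‖ ^ 2 := norm_inner_opr_le _ _
      _ ≤ lam * ‖x‖ ^ 2 := mul_le_mul_of_nonneg_right hlam (by positivity)
  have hMpos : M.PosSemidef := by
    apply Matrix.PosSemidef.of_dotProduct_mulVec_nonneg
    · ext i j
      rw [Matrix.conjTranspose_apply, hMapp, hMapp, star_add]
      have h1 : star (b ((j : ℤ) - (i : ℤ))) = b ((i : ℤ) - (j : ℤ)) := by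
        have := hb ((j : ℤ) - (i : ℤ))
        rw [neg_sub] at this
        exact this.symm
      rw [h1]
      congr 1
      by_cases h : i = j
      · subst h
        simp
      · rw [if_neg h, if_neg (Ne.symm h), star_zero]
    · intro x
      have h1 : star x ⬝ᵥ M.mulVec x = ∑ i, ∑ j, conj (x i) * M i j * x j := by
        simp only [dotProduct, Matrix.mulVec, Pi.star_apply, Finset.mul_sum, mul_assoc]
        rfl
      rw [h1]
      have h2 := hquad (WithLp.toLp 2 x)
      rw [him b hb] at h2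
      have h3 : ∑ i, ∑ j, conj (x i) * M i j * x j =
          ((lam * ‖(WithLp.toLp 2 x : EV N)‖ ^ 2 +
            (⟪(WithLp.toLp 2 x : EV N), opr (toep N b) (WithLp.toLp 2 x)⟫_ℂ).re : ℝ) : ℂ) := by
        rw [Complex.ofReal_add]
        exact h2
      rw [h3]
      have h4 := (abs_le.mp (hreb (WithLp.toLp 2 x))).1
      exact_mod_cast (by linarith : (0 : ℝ) ≤ _)
  obtain ⟨s, σ, hs, hrepr⟩ := carath M hMpos (by
    intro i j
    rw [hMapp, hMapp]
    congr 1
    · by_cases h : i = j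
      · subst h
        simp
      · rw [if_neg (fun h' => h (Fin.succ_injective _ h')),
          if_neg (fun h' => h (Fin.castSucc_injective _ h'))]
    · congr 1
      simp)
  refine ⟨s, σ, hs, ?_, ?_⟩
  · intro k hk
    have hpt : ∀ w ∈ s, ∀ m : ℕ, (fourier (m : ℤ) (pt w) : ℂ) = w ^ m ∧
        (fourier (-(m : ℤ)) (pt w) : ℂ) = (conj w) ^ m := by
      intro w hw m
      have h1 := fourier_pt (hs w hw).1 (m : ℤ)
      rw [zpow_natCast] at h1
      refine ⟨h1, ?_⟩
      rw [fourier_neg, h1, map_pow]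
    rcases le_total 0 k with h | h
    · obtain ⟨m, rfl⟩ := Int.eq_ofNat_of_zero_le h
      rw [abs_of_nonneg h] at hk
      have hm : m ≤ N := by exact_mod_cast hk
      have h1 := hrepr 0 ⟨m, by omega⟩
      rw [hMapp] at h1
      have h2 : ∑ w ∈ s, (σ w : ℂ) * fourier (m : ℤ) (pt w) =
          ∑ w ∈ s, (σ w : ℂ) * (conj w) ^ ((0 : Fin (N + 1)) : ℕ) * w ^ m := by
        refine Finset.sum_congr rfl fun w hw => ?_
        rw [(hpt w hw m).1]
        simp
      rw [h2]
      have h3 : (if (0 : Fin (N + 1)) = ⟨m, by omega⟩ then (lam : ℂ) else 0) =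
          (lam : ℂ) * (if (m : ℤ) = 0 then 1 else 0) := by
        by_cases h0 : m = 0
        · subst h0
          simp
        · rw [if_neg, if_neg (by exact_mod_cast h0), mul_zero]
          intro h4
          exact h0 (congrArg Fin.val h4).symm
      rw [← h3]
      refine Eq.trans ?_ h1
      congr 2
      simp
    · obtain ⟨m, hm⟩ := Int.eq_ofNat_of_zero_le (neg_nonneg.mpr h)
      have hk' : k = -(m : ℤ) := by omega
      subst hk'
      rw [abs_of_nonpos h, neg_neg] at hk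
      have hm : m ≤ N := by exact_mod_cast hk
      have h1 := hrepr ⟨m, by omega⟩ 0
      rw [hMapp] at h1
      have h2 : ∑ w ∈ s, (σ w : ℂ) * fourier (-(m : ℤ)) (pt w) =
          ∑ w ∈ s, (σ w : ℂ) * (conj w) ^ m * w ^ ((0 : Fin (N + 1)) : ℕ) := by
        refine Finset.sum_congr rfl fun w hw => ?_
        rw [(hpt w hw m).2]
        simp
      rw [h2]
      have h3 : (if (⟨m, by omega⟩ : Fin (N + 1)) = 0 then (lam : ℂ) else 0) =
          (lam : ℂ) * (if -(m : ℤ) = 0 then 1 else 0) := by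
        by_cases h0 : m = 0
        · subst h0
          simp
        · rw [if_neg, if_neg (by omega), mul_zero]
          intro h4
          exact h0 (congrArg Fin.val h4)
      rw [← h3]
      refine Eq.trans ?_ h1
      congr 2
  · intro w hw
    have hb' : ∀ n, (fun n => b n - σ w * fourier (-n) (pt w)) (-n) =
        conj ((fun n => b n - σ w * fourier (-n) (pt w)) n) := by
      intro n
      simp only [map_sub, map_mul, Complex.conj_ofReal]
      rw [hb, ← fourier_neg]
    refine opNorm_le_of_quad (htoepH _ hb') hlam0 fun x => ?_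
    -- the quadratic form of the rank one matrix
    have hr : ∀ x : EV N, ⟪x, opr (toep N fun n => b n - σ w * fourier (-n) (pt w)) x⟫_ℂ =
        ⟪x, opr (toep N b) x⟫_ℂ -
          ((σ w * ‖∑ j : Fin (N + 1), w ^ (j : ℕ) * x j‖ ^ 2 : ℝ) : ℂ) := by
      intro x
      have h1 := quad_rank {w} σ x
      rw [Finset.sum_singleton] at h1
      rw [← h1, inner_opr, inner_opr, ← Finset.sum_sub_distrib]
      refine Finset.sum_congr rfl fun i _ => ?_
      rw [← Finset.sum_sub_distrib]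
      refine Finset.sum_congr rfl fun j _ => ?_
      rw [Finset.sum_singleton]
      change conj (x i) * (b ((i : ℤ) - (j : ℤ)) - σ w * fourier (-((i : ℤ) - (j : ℤ))) (pt w)) *
        x j = conj (x i) * b ((i : ℤ) - (j : ℤ)) * x j - _
      have h2 : (fourier (-((i : ℤ) - (j : ℤ))) (pt w) : ℂ) =
          (conj w) ^ (i : ℕ) * w ^ (j : ℕ) := by
        have h3 : -((i : ℤ) - (j : ℤ)) = -(i : ℤ) + (j : ℤ) := by ring
        rw [h3, fourier_add, fourier_neg, fourier_pt (hs w hw).1, fourier_pt (hs w hw).1,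
          zpow_natCast, zpow_natCast, map_pow]
      rw [h2]
      ring
    rw [hr x, Complex.sub_re, Complex.ofReal_re]
    have h1 := abs_le.mp (hreb x)
    have h2 : 0 ≤ σ w * ‖∑ j : Fin (N + 1), w ^ (j : ℕ) * x j‖ ^ 2 :=
      mul_nonneg (hs w hw).2.le (by positivity)
    -- lower bound
    have h3 : σ w * ‖∑ j : Fin (N + 1), w ^ (j : ℕ) * x j‖ ^ 2 ≤
        lam * ‖x‖ ^ 2 + (⟪x, opr (toep N b) x⟫_ℂ).re := by
      have h4 := hquad x
      simp_rw [hrepr] at h4
      rw [quad_rank, him b hb, ← Complex.ofReal_add] at h4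
      have h5 := Complex.ofReal_injective h4
      rw [← h5]
      exact Finset.single_le_sum (f := fun w => σ w * ‖∑ j : Fin (N + 1), w ^ (j : ℕ) * x j‖ ^ 2)
        (fun z hz => mul_nonneg (hs z hz).2.le (by positivity)) hw
    rw [abs_le]
    constructor <;> linarith

end Pool.Agent.Toep
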