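import Mathlib
import Pool.Agent.toep.Core

/-! The main theorem: every maximizer has order `N`. -/

open scoped ComplexConjugate ENNReal InnerProductSpace
open MeasureTheory AddCircle

namespace Pool.Agent.Toep

/-- bounded functions that are a.e. of constant modulus -/
theorem supNorm_of_abs {f : Circ → ℂ} {c : ℝ} (hc : 0 ≤ c)
    (h : ∀ᵐ x ∂haarAddCircle, ‖f x‖ = c) : supNorm f = c := by
  unfold supNorm
  have h1 : eLpNorm f ∞ haarAddCircle = eLpNorm (fun _ : Circ => c) ∞ haarAddCircle := by
    apply eLpNorm_congr_norm_ae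
    filter_upwards [h] with x hx
    rw [hx, Real.norm_of_nonneg hc]
  rw [h1, eLpNorm_const _ (by simp) (NeZero.ne _)]
  simp [hc]

/-- the small sets around a point -/
theorem small_sets (w : ℂ) (hw : ‖w‖ = 1) :
    Filter.Tendsto (fun k : ℕ => haarAddCircle
      {x : Circ | ‖(fourier 1 x : ℂ) - w‖ ^ 2 < (1 / ((k : ℝ) + 1)) ^ 2}) Filter.atTop
      (nhds 0) := by
  have h1 : haarAddCircle (⋂ k : ℕ,
      {x : Circ | ‖(fourier 1 x : ℂ) - w‖ ^ 2 < (1 / ((k : ℝ) + 1)) ^ 2}) = 0 := by
    refine measure_mono_null ?_ (haar_singleton (pt w))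
    intro x hx
    rw [Set.mem_iInter] at hx
    have h2 : ‖(fourier 1 x : ℂ) - w‖ = 0 := by
      by_contra hne
      have hpos : 0 < ‖(fourier 1 x : ℂ) - w‖ := lt_of_le_of_ne (norm_nonneg _) (Ne.symm hne)
      obtain ⟨k, hk⟩ := exists_nat_one_div_lt hpos
      have h3 := hx k
      change ‖(fourier 1 x : ℂ) - w‖ ^ 2 < (1 / ((k : ℝ) + 1)) ^ 2 at h3
      have h4 : (0 : ℝ) < 1 / ((k : ℝ) + 1) := by positivity
      have h5 : (1 / ((k : ℝ) + 1)) ^ 2 < ‖(fourier 1 x : ℂ) - w‖ ^ 2 :=
        pow_lt_pow_left₀ hk h4.le two_ne_zero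
      linarith
    have h3 : (fourier 1 x : ℂ) = w := sub_eq_zero.mp (norm_eq_zero.mp h2)
    have h4 : (fourier 1 x : ℂ) = fourier 1 (pt w) := by
      rw [h3, fourier_pt hw, zpow_one]
    rw [fourier_one, fourier_one] at h4
    exact injective_toCircle Real.two_pi_pos.ne' (Circle.ext h4)
  rw [← h1]
  apply tendsto_measure_iInter_atTop
  · intro k
    apply MeasurableSet.nullMeasurableSet
    apply measurableSet_lt
    · exact (((map_continuous (fourier 1)).sub continuous_const).norm.pow 2).measurable
    · exact measurable_const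
  · intro k l hkl x hx
    change ‖(fourier 1 x : ℂ) - w‖ ^ 2 < (1 / ((k : ℝ) + 1)) ^ 2
    change ‖(fourier 1 x : ℂ) - w‖ ^ 2 < (1 / ((l : ℝ) + 1)) ^ 2 at hx
    refine hx.trans_le ?_
    apply pow_le_pow_left₀ (by positivity)
    apply one_div_le_one_div_of_le (by positivity)
    have : (k : ℝ) ≤ l := by exact_mod_cast hkl
    linarith
  · exact ⟨0, measure_ne_top _ _⟩

/-- the trigonometric polynomial `|z - w|² - ε` -/
noncomputable def dpoly (w : ℂ) (ε : ℝ) : C(Circ, ℂ) :=
  ((2 - ε : ℝ) : ℂ) • 1 - conj w • fourier 1 - w • fourier (-1)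

theorem dpoly_mem (w : ℂ) (ε : ℝ) : dpoly w ε ∈ TP 1 := by
  apply Submodule.sub_mem
  · apply Submodule.sub_mem
    · exact Submodule.smul_mem _ _ (one_mem_TP 1)
    · exact Submodule.smul_mem _ _ (fourier_mem_TP (by simp))
  · exact Submodule.smul_mem _ _ (fourier_mem_TP (by simp))

theorem dpoly_apply {w : ℂ} (hw : ‖w‖ = 1) (ε : ℝ) (x : Circ) :
    dpoly w ε x = ((‖(fourier 1 x : ℂ) - w‖ ^ 2 - ε : ℝ) : ℂ) := by
  have h1 : dpoly w ε x = ((2 - ε : ℝ) : ℂ) * 1 - conj w * fourier 1 x - w * fourier (-1) x := rfl
  have h2 : ((‖(fourier 1 x : ℂ) - w‖ ^ 2 : ℝ) : ℂ) =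
      ((fourier 1 x : ℂ) - w) * conj ((fourier 1 x : ℂ) - w) := by
    rw [Complex.mul_conj, Complex.normSq_eq_norm_sq]
  have h3 : conj (fourier 1 x : ℂ) = fourier (-1) x := fourier_neg.symm
  have h4 : (fourier 1 x : ℂ) * fourier (-1) x = 1 := by
    rw [← fourier_add]
    simp
  have h5 : w * conj w = 1 := by
    rw [Complex.mul_conj, Complex.normSq_eq_norm_sq, hw]
    norm_num
  rw [h1, Complex.ofReal_sub (‖(fourier 1 x : ℂ) - w‖ ^ 2) ε, h2, map_sub, h3]
  push_cast
  linear_combination -h4 - h5

/-- **Theorem.** For every `N ≥ 1`, every maximizer has order exactly `N`. -/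
theorem order_eq (N : ℕ) (hN : 1 ≤ N) (n : ℕ) (ψ : Circ → ℝ) (h : IsMaximizer N n ψ) :
    n = N := by
  obtain ⟨hnN, ⟨c, hc, hstep⟩, hmax⟩ := h
  by_contra hne
  have hlt : n < N := lt_of_le_of_ne hnN hne
  have hcN := one_lt_cConst N hN
  set F : Circ → ℂ := fun x => (ψ x : ℂ) with hF
  set lam := opNorm (toep N (fourierCoeff F)) with hlam
  rcases hstep with ⟨hn0, hconst⟩ | ⟨hn1, t, ht, ht2, hval⟩
  · -- constants
    obtain ⟨d, hd, hψ⟩ : ∃ d : ℝ, |d| = c ∧ ∀ x, ψ x = d := by
      rcases hconst with h | h
      · exact ⟨c, abs_of_pos hc, h⟩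
      · exact ⟨-c, by rw [abs_neg, abs_of_pos hc], h⟩
    have h1 : supNorm F = c := by
      apply supNorm_of_abs hc.le
      refine Filter.Eventually.of_forall fun x => ?_
      simp only [hF, hψ, Complex.norm_real, Real.norm_eq_abs, hd]
    have h2 : c ≤ lam := by
      have h3 := entry_le (toep N (fourierCoeff F)) 0 0
      have h4 : toep N (fourierCoeff F) 0 0 = (d : ℂ) := by
        change fourierCoeff F (((0 : Fin (N + 1)) : ℤ) - ((0 : Fin (N + 1)) : ℤ)) = d
        rw [sub_self]
        unfold fourierCoeff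
        simp [hF, hψ]
      rw [h4, Complex.norm_real, Real.norm_eq_abs, hd] at h3
      exact h3
    rw [h1] at hmax
    have h3 : c / lam ≤ 1 := by
      rw [div_le_one (by linarith)]
      exact h2
    linarith
  · -- step functions of positive order
    -- a.e. description
    have hae : ∀ᵐ y : Circ ∂haarAddCircle, ∃ r : ℝ, qpoly n t y = (r : ℂ) ∧ r ≠ 0 ∧
        ψ y * r = c * |r| ∧ |ψ y| = c := by
      filter_upwards [ae_arc (n := n) ht2] with y hy
      obtain ⟨j, hj, x, hx, rfl⟩ := hy
      refine ⟨qreal n t x, qpoly_coe n t x, ?_⟩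
      have h1 := qreal_sign ht ht2 hj hx
      rw [hval j hj x hx]
      rcases Nat.even_or_odd j with he | ho
      · rw [he.neg_one_pow, one_mul] at h1
        rw [he.neg_one_pow, one_mul, abs_of_pos h1, abs_of_pos hc]
        exact ⟨h1.ne', rfl, rfl⟩
      · rw [ho.neg_one_pow] at h1
        rw [ho.neg_one_pow, abs_of_neg (by linarith : qreal n t x < 0)]
        refine ⟨by linarith [h1] |> fun h : qreal n t x < 0 => h.ne, by ring, ?_⟩
        rw [neg_one_mul, abs_neg, abs_of_pos hc]
    set q := qpoly n t with hq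
    have hqreal : ∀ y : Circ, q y = (((q y).re : ℝ) : ℂ) := by
      intro y
      obtain ⟨x, rfl⟩ := QuotientAddGroup.mk_surjective y
      have h1 : q (x : Circ) = (qreal n t x : ℂ) := qpoly_coe n t x
      change q (x : Circ) = (((q (x : Circ)).re : ℝ) : ℂ)
      rw [h1, Complex.ofReal_re]
    set r : Circ → ℝ := fun y => (q y).re with hr
    have hqr : ∀ y, q y = (r y : ℂ) := hqreal
    have hrc : Continuous r := Complex.continuous_re.comp q.continuous
    have hae' : ∀ᵐ y : Circ ∂haarAddCircle, r y ≠ 0 ∧ ψ y * r y = c * |r y| ∧ |ψ y| = c := by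
      filter_upwards [hae] with y ⟨ρ, h1, h2, h3, h4⟩
      have h5 : r y = ρ := by
        rw [hr]
        simp only
        rw [h1, Complex.ofReal_re]
      rw [h5]
      exact ⟨h2, h3, h4⟩
    have hFmeas : AEStronglyMeasurable F haarAddCircle := by
      have h1 : F =ᵐ[haarAddCircle] fun y => ((c * |r y| / r y : ℝ) : ℂ) := by
        filter_upwards [hae'] with y ⟨h2, h3, _⟩
        simp only [hF]
        congr 1
        rw [eq_div_iff h2]
        exact h3
      refine AEStronglyMeasurable.congr ?_ h1.symm
      apply Measurable.aestronglyMeasurable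
      apply Complex.measurable_ofReal.comp
      exact ((hrc.abs.measurable.const_mul c).div hrc.measurable)
    have hFmem : MemLp F ∞ haarAddCircle := by
      apply memLp_top_of_bound hFmeas c
      filter_upwards [hae'] with y ⟨_, _, h2⟩
      simp only [hF, Complex.norm_real, Real.norm_eq_abs]
      exact h2.le
    have hsup : supNorm F = c := by
      apply supNorm_of_abs hc.le
      filter_upwards [hae'] with y ⟨_, _, h2⟩
      simp only [hF, Complex.norm_real, Real.norm_eq_abs]
      exact h2
    rw [hsup] at hmax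
    have hlam0 : 0 < lam := by
      rcases (opNorm_nonneg (toep N (fourierCoeff F))).lt_or_eq with h | h
      · exact h
      · rw [← hlam] at h
        rw [← h, div_zero] at hmax
        linarith
    have hcl : cConst N * lam = c := by
      rw [← hmax]
      field_simp
    have hlamc : lam < c := by
      rw [← hcl]
      nlinarith
    obtain ⟨s, σ, hs, hrep, hnorm⟩ := key_matrix N (fourierCoeff F) (coef_conj ψ) lam le_rfl
    -- the quadrature identity
    have hquad : ∀ g ∈ TP N, (lam : ℂ) * intL g + pairL F hFmem g =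
        ∑ w ∈ s, (σ w : ℂ) * g (pt w) := by
      intro g hg
      have h1 := TP_ext ((lam : ℂ) • intL + pairL F hFmem)
        (∑ w ∈ s, (σ w : ℂ) • evL (pt w)) (by
          intro k hk
          have h2 := hrep k hk
          have h3 : intL (fourier k) = if k = 0 then 1 else 0 := by
            rw [intL_apply]
            exact integral_fourier k
          rw [LinearMap.add_apply, LinearMap.smul_apply, pairL_fourier, h3, smul_eq_mul, h2,
            LinearMap.sum_apply]
          rfl) hg
      rw [LinearMap.add_apply, LinearMap.smul_apply, LinearMap.sum_apply] at h1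
      exact h1
    -- real integrals
    have hint_r : Integrable r haarAddCircle :=
      hrc.integrable_of_hasCompactSupport (HasCompactSupport.of_compactSpace _)
    have hint_ar : Integrable (fun y => |r y|) haarAddCircle :=
      hrc.abs.integrable_of_hasCompactSupport (HasCompactSupport.of_compactSpace _)
    have hposint : 0 < ∫ y, |r y| ∂haarAddCircle := by
      have h0 : 0 ≤ ∫ y, |r y| ∂haarAddCircle := integral_nonneg fun y => abs_nonneg (r y)
      rcases h0.lt_or_eq with h | h
      · exact h
      · exfalso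
        have h1 := (integral_eq_zero_iff_of_nonneg (μ := haarAddCircle)
          (fun y => abs_nonneg (r y)) hint_ar).mp h.symm
        have h2 : ∀ᵐ y : Circ ∂haarAddCircle, False := by
          filter_upwards [h1, hae'] with y h3 ⟨h4, _, _⟩
          exact h4 (abs_eq_zero.mp h3)
        rw [Filter.eventually_false_iff_eq_bot, ae_eq_bot] at h2
        exact IsProbabilityMeasure.ne_zero _ h2
    -- a node in the region where ψ is positive
    obtain ⟨w, hw, hwpos⟩ : ∃ w ∈ s, 0 < r (pt w) := by
      by_contra hcon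
      push Not at hcon
      have h1 := hquad q (TP_mono hnN (qpoly_mem n t))
      have h2 : intL q = ((∫ y, r y ∂haarAddCircle : ℝ) : ℂ) := by
        rw [intL_apply, ← integral_complex_ofReal]
        exact integral_congr_ae (Filter.Eventually.of_forall hqr)
      have h3 : pairL F hFmem q = ((∫ y, c * |r y| ∂haarAddCircle : ℝ) : ℂ) := by
        rw [pairL_apply, ← integral_complex_ofReal]
        apply integral_congr_ae
        filter_upwards [hae'] with y ⟨_, h4, _⟩
        rw [hqr, ← h4]
        simp only [hF]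
        push_cast
        ring
      have h4 : ∑ w ∈ s, (σ w : ℂ) * q (pt w) = ((∑ w ∈ s, σ w * r (pt w) : ℝ) : ℂ) := by
        push_cast
        refine Finset.sum_congr rfl fun w _ => ?_
        rw [hqr]
      rw [h2, h3, h4] at h1
      have h5 : lam * (∫ y, r y ∂haarAddCircle) + ∫ y, c * |r y| ∂haarAddCircle =
          ∑ w ∈ s, σ w * r (pt w) := by exact_mod_cast h1
      have h6 : ∑ w ∈ s, σ w * r (pt w) ≤ 0 :=
        Finset.sum_nonpos fun w hw => mul_nonpos_of_nonneg_of_nonpos (hs w hw).2.le (hcon w hw)
      rw [integral_const_mul] at h5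
      have h7 : -(∫ y, |r y| ∂haarAddCircle) ≤ ∫ y, r y ∂haarAddCircle := by
        rw [← integral_neg]
        exact integral_mono hint_ar.neg hint_r fun y => neg_abs_le (r y)
      nlinarith
    obtain ⟨hw1, hσ⟩ := hs w hw
    -- the perturbed matrix
    set a' : ℤ → ℂ := fun m => fourierCoeff F m - σ w * fourier (-m) (pt w) with ha'
    have ha'H : ∀ m, a' (-m) = conj (a' m) := by
      intro m
      simp only [ha', map_sub, map_mul, Complex.conj_ofReal]
      rw [coef_conj ψ, ← fourier_neg]
    have ha'N : opNorm (toep N a') ≤ lam := hnorm w hw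
    -- the inequality for trigonometric polynomials
    have hineq : ∀ g ∈ TP N, ‖pairL F hFmem g - σ w * g (pt w)‖ ≤
        c * ∫ y, ‖g y‖ ∂haarAddCircle := by
      intro g hg
      apply le_of_forall_pos_le_add
      intro ε hε
      have hI : 0 ≤ ∫ y, ‖g y‖ ∂haarAddCircle := integral_nonneg fun y => norm_nonneg _
      obtain ⟨f, hf, hfa, hfn⟩ := exists_symbol N a' ha'H
        (ε := ε / ((∫ y, ‖g y‖ ∂haarAddCircle) + 1)) (by positivity)
      have h1 : pairL f hf g = pairL F hFmem g - σ w * g (pt w) := by
        have h2 := TP_ext (pairL f hf) (pairL F hFmem - (σ w : ℂ) • evL (pt w)) (by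
          intro k hk
          rw [pairL_fourier, hfa (-k) (by rwa [abs_neg]), LinearMap.sub_apply, pairL_fourier,
            LinearMap.smul_apply, evL_apply, smul_eq_mul]
          simp only [ha', neg_neg]) hg
        rw [h2]
        rfl
      rw [← h1]
      have h3 := norm_pairL_le f hf g
      have h4 : supNorm f ≤ c + ε / ((∫ y, ‖g y‖ ∂haarAddCircle) + 1) := by
        refine hfn.trans ?_
        have h5 : cConst N * opNorm (toep N a') ≤ cConst N * lam :=
          mul_le_mul_of_nonneg_left ha'N (by linarith)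
        linarith
      have h6 : ε / ((∫ y, ‖g y‖ ∂haarAddCircle) + 1) * (∫ y, ‖g y‖ ∂haarAddCircle) ≤ ε := by
        rw [div_mul_eq_mul_div, div_le_iff₀ (by positivity)]
        nlinarith
      calc ‖pairL f hf g‖ ≤ supNorm f * ∫ y, ‖g y‖ ∂haarAddCircle := h3
        _ ≤ (c + ε / ((∫ y, ‖g y‖ ∂haarAddCircle) + 1)) * ∫ y, ‖g y‖ ∂haarAddCircle :=
          mul_le_mul_of_nonneg_right h4 hI
        _ ≤ c * (∫ y, ‖g y‖ ∂haarAddCircle) + ε := by linarith
    -- the local estimate
    have hlocal : ∀ k : ℕ, σ w * r (pt w) ≤ 2 * c * ‖q‖ * (haarAddCircle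
        {x : Circ | ‖(fourier 1 x : ℂ) - w‖ ^ 2 < (1 / ((k : ℝ) + 1)) ^ 2}).toReal := by
      intro k
      set δ : ℝ := 1 / ((k : ℝ) + 1) with hδ
      have hδpos : 0 < δ := by positivity
      set S : Set Circ := {x : Circ | ‖(fourier 1 x : ℂ) - w‖ ^ 2 < δ ^ 2} with hS
      set D : Circ → ℝ := fun y => ‖(fourier 1 y : ℂ) - w‖ ^ 2 with hD
      have hDc : Continuous D := ((map_continuous (fourier 1)).sub continuous_const).norm.pow 2
      have hSm : MeasurableSet S := measurableSet_lt hDc.measurable measurable_const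
      set g := q * dpoly w (δ ^ 2) with hg
      have hgv : ∀ y, g y = ((r y * (D y - δ ^ 2) : ℝ) : ℂ) := by
        intro y
        have h1 : g y = q y * dpoly w (δ ^ 2) y := rfl
        rw [h1, dpoly_apply hw1, hqr, ← Complex.ofReal_mul]
      have hgm : g ∈ TP N := TP_mono (by omega) (TP_mul (qpoly_mem n t) (dpoly_mem w (δ ^ 2)))
      have h1 := hineq g hgm
      have hcont1 : Continuous fun y => |r y| * (D y - δ ^ 2) :=
        hrc.abs.mul (hDc.sub continuous_const)
      have hcont2 : Continuous fun y => |r y| * |D y - δ ^ 2| :=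
        hrc.abs.mul (hDc.sub continuous_const).abs
      have hi1 : Integrable (fun y => |r y| * (D y - δ ^ 2)) haarAddCircle :=
        hcont1.integrable_of_hasCompactSupport (HasCompactSupport.of_compactSpace _)
      have hi2 : Integrable (fun y => |r y| * |D y - δ ^ 2|) haarAddCircle :=
        hcont2.integrable_of_hasCompactSupport (HasCompactSupport.of_compactSpace _)
      have h2 : pairL F hFmem g =
          ((c * ∫ y, |r y| * (D y - δ ^ 2) ∂haarAddCircle : ℝ) : ℂ) := by
        rw [← integral_const_mul, pairL_apply, ← integral_complex_ofReal]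
        apply integral_congr_ae
        filter_upwards [hae'] with y ⟨_, h4, _⟩
        rw [hgv, ← mul_assoc, ← h4]
        simp only [hF]
        push_cast
        ring
      have h3 : g (pt w) = ((-(δ ^ 2) * r (pt w) : ℝ) : ℂ) := by
        rw [hgv]
        have h4 : D (pt w) = 0 := by
          simp only [hD]
          rw [fourier_pt hw1, zpow_one, sub_self, norm_zero]
          norm_num
        rw [h4]
        congr 1
        ring
      have h4 : ∫ y, ‖g y‖ ∂haarAddCircle = ∫ y, |r y| * |D y - δ ^ 2| ∂haarAddCircle := by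
        apply integral_congr_ae
        refine Filter.Eventually.of_forall fun y => ?_
        simp only
        rw [hgv, Complex.norm_real, Real.norm_eq_abs, abs_mul]
      rw [h2, h3, h4, ← Complex.ofReal_mul, ← Complex.ofReal_sub, Complex.norm_real,
        Real.norm_eq_abs] at h1
      have h5 := (le_abs_self _).trans h1
      -- pointwise bound
      have h6 : ∫ y, (|r y| * |D y - δ ^ 2| - |r y| * (D y - δ ^ 2)) ∂haarAddCircle ≤
          2 * ‖q‖ * δ ^ 2 * (haarAddCircle S).toReal := by
        have h7 : ∫ y, S.indicator (fun _ => 2 * ‖q‖ * δ ^ 2) y ∂haarAddCircle =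
            2 * ‖q‖ * δ ^ 2 * (haarAddCircle S).toReal := by
          rw [integral_indicator hSm, setIntegral_const, smul_eq_mul, mul_comm]
          rfl
        rw [← h7]
        apply integral_mono (hi2.sub hi1)
        · exact (integrable_const _).indicator hSm
        · intro y
          change |r y| * |D y - δ ^ 2| - |r y| * (D y - δ ^ 2) ≤ _
          by_cases hy : y ∈ S
          · rw [Set.indicator_of_mem hy]
            have h8 : D y < δ ^ 2 := hy
            have h9 : 0 ≤ D y := by positivity
            have h10 : |r y| ≤ ‖q‖ := by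
              have := q.norm_coe_le_norm y
              rw [hqr, Complex.norm_real, Real.norm_eq_abs] at this
              exact this
            have h11 : |D y - δ ^ 2| = δ ^ 2 - D y := by
              rw [abs_of_neg (by linarith)]
              ring
            rw [h11]
            have h12 : |r y| * (δ ^ 2 - D y) - |r y| * (D y - δ ^ 2) =
                2 * (|r y| * (δ ^ 2 - D y)) := by ring
            rw [h12]
            have h13 : |r y| * (δ ^ 2 - D y) ≤ ‖q‖ * δ ^ 2 :=
              mul_le_mul h10 (by linarith) (by linarith) (norm_nonneg _)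
            linarith
          · rw [Set.indicator_of_notMem hy]
            have h8 : δ ^ 2 ≤ D y := not_lt.mp hy
            rw [abs_of_nonneg (by linarith : (0 : ℝ) ≤ D y - δ ^ 2)]
            linarith
      rw [integral_sub hi2 hi1] at h6
      have h7 : δ ^ 2 * (σ w * r (pt w)) ≤ δ ^ 2 * (2 * c * ‖q‖ * (haarAddCircle S).toReal) := by
        nlinarith [mul_le_mul_of_nonneg_left h6 hc.le]
      exact le_of_mul_le_mul_left h7 (by positivity)
    have hlim : Filter.Tendsto (fun k : ℕ => 2 * c * ‖q‖ * (haarAddCircle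
        {x : Circ | ‖(fourier 1 x : ℂ) - w‖ ^ 2 < (1 / ((k : ℝ) + 1)) ^ 2}).toReal)
        Filter.atTop (nhds (2 * c * ‖q‖ * 0)) := by
      apply Filter.Tendsto.const_mul
      have h1 := (ENNReal.tendsto_toReal ENNReal.zero_ne_top).comp (small_sets w hw1)
      exact h1
    have hfin := ge_of_tendsto' hlim hlocal
    rw [mul_zero] at hfin
    have := mul_pos hσ hwpos
    linarith

end Pool.Agent.Toep
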